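import Pool.Agent.Work.MP_bf01b2_co.Stmts

/-!
# MP_bf01b2_co : assembly of the final statement
-/

set_option autoImplicit false

namespace Pool.Agent.Work.MP_bf01b2_co

theorem asm_co_mem (W B K t x : ℕ) (hW : 0 < W) (hB : 0 < B) : co W B K t x ∈ allCo W B K := by
  have h1 : t / W % B < B := Nat.mod_lt _ hB
  have h2 : t % W < W := Nat.mod_lt _ hW
  have h3 : x % 16 < 16 := Nat.mod_lt _ (by norm_num)
  unfold co allCo coarse
  split_ifs with ha hb
  · simp only [Finset.mem_union, Finset.mem_product, Finset.mem_range]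
    exact Or.inl (Or.inl ⟨h1, ha, h3⟩)
  · simp only [Finset.mem_union, Finset.mem_product, Finset.mem_range, Finset.mem_Ico,
      Finset.mem_singleton]
    exact Or.inl (Or.inr ⟨h1, ⟨not_lt.mp ha, h2⟩, trivial⟩)
  · simp only [Finset.mem_union, Finset.mem_product, Finset.mem_Ico, Finset.mem_singleton]
    exact Or.inr ⟨trivial, ⟨not_lt.mp ha, h2⟩, trivial⟩

theorem asm_card (W B K : ℕ) (hKW : K ≤ W) :
    (allCo W B K).card ≤ B * (W + 15 * K) + (W - K) := by
  unfold allCo coarse
  refine (Finset.card_union_le _ _).trans ?_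
  refine (Nat.add_le_add_right (Finset.card_union_le _ _) _).trans ?_
  simp only [Finset.card_product, Finset.card_range, Nat.card_Ico, Finset.card_singleton]
  obtain ⟨d, rfl⟩ := Nat.exists_eq_add_of_le hKW
  simp only [Nat.add_sub_cancel_left]
  nlinarith

theorem asm_cd_append {W : ℕ} (B K : ℕ) (ω : List Bool → Fin W → Fin 16) (y : List Bool)
    (e : Bool) (t : ℕ) (ht : t < y.length) : cd B K ω (y ++ [e]) t = cd B K ω y t := by
  unfold cd
  have h1 : t / W * W ≤ y.length := (Nat.div_mul_le_self t W).trans ht.le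
  rw [List.take_append_of_le_length h1, List.getD_append _ _ _ _ ht]

theorem asm_P_append {W : ℕ} (B K : ℕ) (ω : List Bool → Fin W → Fin 16) (y : List Bool)
    (e : Bool) (c : Co) : P B K ω (y ++ [e]) c =
      P B K ω y c + if cd B K ω (y ++ [e]) y.length = c then 1 else 0 := by
  unfold P
  rw [List.length_append, List.length_singleton, Finset.sum_range_succ]
  congr 1
  refine Finset.sum_congr rfl (fun t ht => ?_)
  rw [asm_cd_append B K ω y e t (Finset.mem_range.mp ht)]

theorem asm_zmod : ∀ x y : ZMod 2, (decide (x = 1)) = (decide (y = 1)) → x = y := by decide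

theorem asm_zmod' : ∀ x : ZMod 2, (decide (x = 1)) ≠ (decide (x + 1 = 1)) := by decide

theorem asm_hamming {W : ℕ} (B K m : ℕ) (hW : 0 < W) (hB : 0 < B)
    (ω : List Bool → Fin W → Fin 16) (emb : {c // c ∈ allCo W B K} ↪ Fin m)
    (y : List Bool) (e : Bool) :
    hammingDist
      (Function.extend emb (fun c => decide (P B K ω y c.1 = 1)) (fun _ => false))
      (Function.extend emb (fun c => decide (P B K ω (y ++ [e]) c.1 = 1)) (fun _ => false)) = 1 := by
  set c0 : Co := cd B K ω (y ++ [e]) y.length with hc0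
  have hmem : c0 ∈ allCo W B K := asm_co_mem W B K _ _ hW hB
  unfold hammingDist
  rw [Finset.card_eq_one]
  refine ⟨emb ⟨c0, hmem⟩, ?_⟩
  ext i
  simp only [Finset.mem_filter, Finset.mem_univ, true_and, Finset.mem_singleton]
  constructor
  · intro h
    by_cases hi : ∃ c, emb c = i
    · obtain ⟨c, rfl⟩ := hi
      rw [emb.injective.extend_apply, emb.injective.extend_apply, asm_P_append] at h
      by_contra hne
      have hcc : c0 ≠ c.1 := by
        intro h2
        apply hne
        congr 1
        exact Subtype.ext h2.symm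
      rw [← hc0, if_neg hcc, add_zero] at h
      exact h rfl
    · rw [Function.extend_apply' _ _ _ hi, Function.extend_apply' _ _ _ hi] at h
      exact absurd rfl h
  · rintro rfl
    rw [emb.injective.extend_apply, emb.injective.extend_apply, asm_P_append, ← hc0, if_pos rfl]
    exact asm_zmod' _

theorem assemble (h1 : Core) (h2 : TreeStr) (h3 : Params) : FinalStatement := by
  obtain ⟨C, hC⟩ := h3
  refine ⟨C, ?_⟩
  intro n hn V _ _ G _ hG hdeg hcard m hm
  obtain ⟨W, B, K, L, hK, hKW, hB, hn1, hn2, hn3, hn4⟩ := hC n hn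
  obtain ⟨s, hs, hpre, hadj⟩ := h2 V G hG hdeg
  have hW : 0 < W := hK.trans_le hKW
  have hB0 : 0 < B := by omega
  obtain ⟨ω, hω⟩ := h1 W B K L n hK hKW hB hn1 hn2 hn3 (Finset.univ.image s)
    (by
      intro v hv k
      obtain ⟨a, -, rfl⟩ := Finset.mem_image.mp hv
      obtain ⟨u, hu⟩ := hpre a k
      exact Finset.mem_image.mpr ⟨u, Finset.mem_univ _, hu⟩)
    (Finset.card_image_le.trans (by simpa using hcard))
  have hcm : (allCo W B K).card ≤ m := by
    have h4 : ((B * (W + 15 * K) + (W - K) : ℕ) : ℝ) ≤ (m : ℝ) := hn4.trans hm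
    exact (asm_card W B K hKW).trans (by exact_mod_cast h4)
  obtain ⟨emb⟩ : Nonempty ({c // c ∈ allCo W B K} ↪ Fin m) := by
    apply Function.Embedding.nonempty_of_card_le
    rw [Fintype.card_coe, Fintype.card_fin]
    exact hcm
  set F : V → Fin m → Bool := fun v =>
    Function.extend emb (fun c => decide (P B K ω (s v) c.1 = 1)) (fun _ => false) with hF
  have hinj : Function.Injective F := by
    intro u v huv
    apply hs
    refine hω (s u) (Finset.mem_image.mpr ⟨u, Finset.mem_univ _, rfl⟩) (s v)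
      (Finset.mem_image.mpr ⟨v, Finset.mem_univ _, rfl⟩) ?_
    intro c hc
    have h5 := congrFun huv (emb ⟨c, hc⟩)
    simp only [hF] at h5
    rw [emb.injective.extend_apply, emb.injective.extend_apply] at h5
    exact asm_zmod _ _ h5
  refine ⟨⟨F, ?_⟩, hinj⟩
  intro a b hab
  rw [SimpleGraph.fromRel_adj]
  refine ⟨fun h => hab.ne (hinj h), ?_⟩
  rcases hadj a b hab with ⟨e, he⟩ | ⟨e, he⟩
  · left
    have h6 := asm_hamming B K m hW hB0 ω emb (s a) e
    rw [← he] at h6
    exact h6
  · right
    have h6 := asm_hamming B K m hW hB0 ω emb (s b) e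
    rw [← he] at h6
    exact h6

end Pool.Agent.Work.MP_bf01b2_co
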