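import Pool.Agent.Work.MP_bf01b2_co.Stmts

/-!
# MP_bf01b2_co : item N, choice of the parameters
-/

set_option autoImplicit false

namespace Pool.Agent.Work.MP_bf01b2_co

theorem params : Params := by
  refine ⟨6000, ?_⟩
  intro n hn
  obtain ⟨l, hl⟩ : ∃ l, l = Nat.log 2 n + 1 := ⟨_, rfl⟩
  obtain ⟨K, hK⟩ : ∃ K, K = 3 * l + 20 := ⟨_, rfl⟩
  obtain ⟨s, hs⟩ : ∃ s, s = Nat.sqrt (n * K) := ⟨_, rfl⟩
  obtain ⟨W, hW⟩ : ∃ W, W = s + 1 + K := ⟨_, rfl⟩
  obtain ⟨q, hq⟩ : ∃ q, q = n / W := ⟨_, rfl⟩
  have hlow : n < 2 ^ l := by rw [hl]; exact Nat.lt_pow_succ_log_self (by norm_num) n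
  have hup : 2 ^ (l - 1) ≤ n := by
    rw [hl, Nat.add_sub_cancel]; exact Nat.pow_log_le_self 2 (by omega)
  have hln : l ≤ n := by
    have : l - 1 < 2 ^ (l - 1) := Nat.lt_two_pow_self
    omega
  have hWpos : 0 < W := by omega
  have hqW : q * W ≤ n := by rw [hq]; exact Nat.div_mul_le_self n W
  have hqW' : n < (q + 1) * W := by
    rw [hq]
    have h1 := Nat.div_add_mod n W
    have h2 := Nat.mod_lt n hWpos
    nlinarith
  have hqn : q ≤ n := by rw [hq]; exact Nat.div_le_self n W
  have hs1 : s * s ≤ n * K := by rw [hs]; exact Nat.sqrt_le (n * K)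
  have hs2 : n * K < (s + 1) * (s + 1) := by rw [hs]; exact Nat.lt_succ_sqrt (n * K)
  have hsn : s ≤ n + K := by nlinarith
  refine ⟨W, q + 9, K, 2 * (W + 15 * K) + 2, by omega, by omega, by omega, ?_, ?_, le_rfl, ?_⟩
  · have : q + 9 - 4 = q + 5 := by omega
    rw [this]
    nlinarith
  · have h1 : 2 * (2 * (W + 15 * K) + 2) * (q + 9) ≤ 2 * (104 * n + 684) * (n + 9) := by
      apply Nat.mul_le_mul
      · apply Nat.mul_le_mul_left
        omega
      · omega
    have h2 : 2 * (104 * n + 684) * (n + 9) ≤ 2 ^ 20 * n ^ 3 := by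
      have e : 2 * (104 * n + 684) * (n + 9) ≤ 5000 * (n * n) := by nlinarith
      have e2 : n * n * 2 ≤ n ^ 3 := by
        have : n ^ 3 = n * n * n := by ring
        rw [this]; exact Nat.mul_le_mul_left _ hn
      nlinarith
    have h3 : n ^ 3 ≤ 2 ^ (3 * l) := by
      rw [mul_comm, pow_mul]
      exact Nat.pow_le_pow_left hlow.le 3
    rw [hK, pow_add]
    nlinarith
  · have hnr : (2 : ℝ) ≤ n := by exact_mod_cast hn
    have hlog2 : (0.69 : ℝ) < Real.log 2 := lt_trans (by norm_num) Real.log_two_gt_d9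
    have hlogn : Real.log 2 ≤ Real.log n := Real.log_le_log (by norm_num) hnr
    have hlogn' : Real.log n ≤ n := (Real.log_le_sub_one_of_pos (by linarith)).trans (by linarith)
    set R : ℝ := Real.sqrt (n * Real.log n) with hR
    have hR1 : 1 ≤ R := by
      rw [hR, Real.one_le_sqrt]; nlinarith
    have hRlog : Real.log n ≤ R := by
      rw [hR]
      apply Real.le_sqrt_of_sq_le
      nlinarith
    have hKlog : (K : ℝ) ≤ 38 * Real.log n := by
      have h1 : ((l - 1 : ℕ) : ℝ) * Real.log 2 ≤ Real.log n := by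
        rw [← Real.log_pow]
        apply Real.log_le_log (by positivity)
        exact_mod_cast hup
      have h2 : ((l - 1 : ℕ) : ℝ) = (l : ℝ) - 1 := by
        rw [Nat.cast_sub (by omega)]; simp
      rw [h2] at h1
      have h3 : (K : ℝ) = 3 * l + 20 := by rw [hK]; push_cast; ring
      have h4 : (0 : ℝ) ≤ (l : ℝ) - 1 := by
        have : (1 : ℝ) ≤ l := by exact_mod_cast (show 1 ≤ l by omega)
        linarith
      rw [h3]
      nlinarith
    have hKpos : (0 : ℝ) < K := by exact_mod_cast (show 0 < K by omega)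
    have hKR : (K : ℝ) ≤ 38 * R := hKlog.trans (by linarith)
    have hsq : Real.sqrt (n * K) ≤ 7 * R := by
      rw [hR]
      apply Real.sqrt_le_iff.mpr
      refine ⟨by positivity, ?_⟩
      have hn0 : (0 : ℝ) ≤ n := by linarith
      rw [mul_pow, Real.sq_sqrt (mul_nonneg hn0 (by linarith))]
      have e1 : (n : ℝ) * K ≤ n * (38 * Real.log n) := mul_le_mul_of_nonneg_left hKlog hn0
      have e2 : 0 ≤ (n : ℝ) * Real.log n := mul_nonneg hn0 (by linarith)
      linarith
    have hsW : Real.sqrt (n * K) ≤ W := by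
      apply Real.sqrt_le_iff.mpr
      refine ⟨by positivity, ?_⟩
      have hsW' : s + 1 ≤ W := by omega
      have : n * K ≤ W ^ 2 := by
        rw [pow_two]
        exact hs2.le.trans (Nat.mul_le_mul hsW' hsW')
      exact_mod_cast this
    have hs7 : (s : ℝ) ≤ 7 * R := by
      refine le_trans ?_ hsq
      apply Real.le_sqrt_of_sq_le
      have : s ^ 2 ≤ n * K := by rw [pow_two]; exact hs1
      exact_mod_cast this
    have hqK : (q : ℝ) * K ≤ 7 * R := by
      refine le_trans ?_ hsq
      set x := Real.sqrt (n * K) with hx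
      have hx0 : 0 < x := by
        rw [hx]; apply Real.sqrt_pos.mpr
        exact mul_pos (by linarith) hKpos
      have hx2 : x * x = n * K := by rw [hx]; exact Real.mul_self_sqrt (by positivity)
      have h5 : (q : ℝ) * W ≤ n := by exact_mod_cast hqW
      have h6 : (q : ℝ) * x ≤ n := le_trans (by gcongr) h5
      have h7 : (q : ℝ) * K * x ≤ x * x := by
        rw [hx2]
        calc (q : ℝ) * K * x = (q * x) * K := by ring
          _ ≤ n * K := by gcongr
      exact le_of_mul_le_mul_right h7 hx0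
    have hmain : (((q + 9) * (W + 15 * K) + (W - K) : ℕ) : ℝ) ≤
        (q : ℝ) * W + 15 * (q * K) + 9 * W + 135 * K + W := by
      have : (q + 9) * (W + 15 * K) + (W - K) ≤ q * W + 15 * (q * K) + 9 * W + 135 * K + W := by
        have h9 : W - K ≤ W := Nat.sub_le _ _
        have h8 : (q + 9) * (W + 15 * K) = q * W + 15 * (q * K) + 9 * W + 135 * K := by ring
        omega
      exact_mod_cast this
    refine hmain.trans ?_
    have h5 : (q : ℝ) * W ≤ n := by exact_mod_cast hqW
    have hWr : (W : ℝ) = s + 1 + K := by rw [hW]; push_cast; ring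
    linarith

end Pool.Agent.Work.MP_bf01b2_co
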