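import Pool.Agent.Work.MP_bf01b2_co.Stmts

/-!
# MP_bf01b2_co : trees of maximum degree three as prefix closed sets of bit strings (item T)
-/

set_option autoImplicit false

namespace Pool.Agent.Work.MP_bf01b2_co

open SimpleGraph

/-- Strings along an ancestor map. -/
def treeS {V : Type} [DecidableEq V] (r : V) (par : V → V) (b : V → Bool) : ℕ → V → List Bool
  | 0, _ => []
  | (k + 1), v => if v = r then [] else treeS r par b k (par v) ++ [b v]

theorem treeStr : TreeStr := by
  intro V _ _ G _ hT hdeg
  classical
  have hconn : G.Connected := hT.connected
  have hcard : G.edgeFinset.card + 1 = Fintype.card V := hT.card_edgeFinset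
  -- a root of degree at most two
  obtain ⟨r, hr⟩ : ∃ r : V, G.degree r ≤ 2 := by
    by_contra hcon
    push Not at hcon
    have h1 := G.sum_degrees_eq_twice_card_edges
    have h2 : ∑ _v : V, 2 ≤ ∑ v : V, G.degree v := Finset.sum_le_sum fun v _ => (hcon v).le
    rw [Finset.sum_const, Finset.card_univ, smul_eq_mul] at h2
    omega
  -- parents
  have hpar : ∀ v : V, ∃ u : V, v ≠ r → G.Adj v u ∧ G.dist u r + 1 = G.dist v r := by
    intro v
    by_cases hv : v = r
    · exact ⟨v, fun h => absurd hv h⟩
    obtain ⟨w, hw⟩ := hconn.exists_walk_length_eq_dist v r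
    cases w with
    | nil => exact absurd rfl hv
    | @cons _ u _ h p =>
      refine ⟨u, fun _ => ⟨h, ?_⟩⟩
      rw [Walk.length_cons] at hw
      have h1 : G.dist u r ≤ p.length := dist_le p
      have h2 : G.dist v r ≤ G.dist v u + G.dist u r := hconn.dist_triangle
      have h3 : G.dist v u = 1 := dist_eq_one_iff_adj.2 h
      omega
  choose par hpar using hpar
  -- every edge joins a vertex to its parent
  have hedge : ∀ u v : V, G.Adj u v → (v ≠ r ∧ par v = u) ∨ (u ≠ r ∧ par u = v) := by
    let f : V → Sym2 V := fun v => s(v, par v)
    have hinj : Set.InjOn f ((Finset.univ.erase r : Finset V) : Set V) := by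
      intro v hv w hw hvw
      have hv' : v ≠ r := by
        intro h
        rw [h] at hv
        simp at hv
      have hw' : w ≠ r := by
        intro h
        rw [h] at hw
        simp at hw
      rcases Sym2.eq_iff.1 hvw with ⟨h1, _⟩ | ⟨h1, h2⟩
      · exact h1
      · have h3 := (hpar v hv').2
        have h4 := (hpar w hw').2
        rw [h2] at h3
        rw [← h1] at h4
        omega
    have hmaps : ∀ v ∈ (Finset.univ.erase r : Finset V), f v ∈ G.edgeFinset := by
      intro v hv
      rw [mem_edgeFinset, mem_edgeSet]
      exact (hpar v (Finset.ne_of_mem_erase hv)).1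
    have himg : (Finset.univ.erase r : Finset V).image f = G.edgeFinset := by
      apply Finset.eq_of_subset_of_card_le
      · intro e he
        obtain ⟨v, hv, rfl⟩ := Finset.mem_image.1 he
        exact hmaps v hv
      · rw [Finset.card_image_of_injOn hinj, Finset.card_erase_of_mem (Finset.mem_univ r),
          Finset.card_univ]
        omega
    intro u v huv
    have h1 : s(u, v) ∈ G.edgeFinset := by
      rw [mem_edgeFinset, mem_edgeSet]
      exact huv
    rw [← himg] at h1
    obtain ⟨w, hw, hwe⟩ := Finset.mem_image.1 h1
    have hw' : w ≠ r := Finset.ne_of_mem_erase hw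
    rcases Sym2.eq_iff.1 hwe with ⟨h2, h3⟩ | ⟨h2, h3⟩
    · right
      rw [← h2]
      exact ⟨hw', h3⟩
    · left
      rw [← h2]
      exact ⟨hw', h3⟩
  -- at most two children
  have hch : ∀ p : V, ∃ f : V → Bool, Set.InjOn f {v | v ≠ r ∧ par v = p} := by
    intro p
    set S : Finset V := Finset.univ.filter (fun v => v ≠ r ∧ par v = p) with hS
    have hcS : S.card ≤ 2 := by
      have hsub : S ⊆ G.neighborFinset p := by
        intro v hv
        rw [hS, Finset.mem_filter] at hv
        rw [mem_neighborFinset]
        have := (hpar v hv.2.1).1
        rw [hv.2.2] at this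
        exact this.symm
      by_cases hp : p = r
      · refine (Finset.card_le_card hsub).trans ?_
        rw [card_neighborFinset_eq_degree, hp]
        exact hr
      · have hsub2 : S ⊆ (G.neighborFinset p).erase (par p) := by
          intro v hv
          refine Finset.mem_erase.2 ⟨?_, hsub hv⟩
          intro h
          rw [hS, Finset.mem_filter] at hv
          have h3 := (hpar p hp).2
          have h4 := (hpar v hv.2.1).2
          rw [hv.2.2, h] at h4
          omega
        have h5 : par p ∈ G.neighborFinset p := by
          rw [mem_neighborFinset]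
          exact (hpar p hp).1
        have h6 := Finset.card_le_card hsub2
        rw [Finset.card_erase_of_mem h5, card_neighborFinset_eq_degree] at h6
        have := hdeg p
        omega
    have hne : Nonempty (S ↪ Bool) := by
      apply Function.Embedding.nonempty_of_card_le
      rw [Fintype.card_coe, Fintype.card_bool]
      exact hcS
    obtain ⟨g⟩ := hne
    refine ⟨fun v => if h : v ∈ S then g ⟨v, h⟩ else false, ?_⟩
    intro u hu v hv huv
    have hu' : u ∈ S := by
      rw [hS, Finset.mem_filter]
      exact ⟨Finset.mem_univ _, hu⟩
    have hv' : v ∈ S := by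
      rw [hS, Finset.mem_filter]
      exact ⟨Finset.mem_univ _, hv⟩
    simp only [dif_pos hu', dif_pos hv'] at huv
    have := g.injective huv
    exact congrArg Subtype.val this
  choose F hF using hch
  set b : V → Bool := fun v => F (par v) v with hb
  set s : V → List Bool := fun v => treeS r par b (G.dist v r) v with hs
  have hsr : s r = [] := by
    simp only [hs, dist_self]
    rfl
  have hsv : ∀ v, v ≠ r → s v = s (par v) ++ [b v] := by
    intro v hv
    simp only [hs]
    rw [← (hpar v hv).2, treeS, if_neg hv]
  have hlen : ∀ v, (s v).length = G.dist v r := by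
    have : ∀ k : ℕ, ∀ v, G.dist v r = k → (s v).length = k := by
      intro k
      induction k with
      | zero =>
        intro v hv
        have : v = r := hconn.dist_eq_zero_iff.1 hv
        rw [this, hsr]
        rfl
      | succ k ih =>
        intro v hv
        have hvr : v ≠ r := by
          intro h
          rw [h, dist_self] at hv
          omega
        rw [hsv v hvr, List.length_append, ih (par v) (by have := (hpar v hvr).2; omega)]
        rfl
    exact fun v => this _ v rfl
  refine ⟨s, ?_, ?_, ?_⟩
  · have : ∀ k : ℕ, ∀ u v, G.dist u r = k → s u = s v → u = v := by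
      intro k
      induction k with
      | zero =>
        intro u v hu huv
        have h1 : G.dist v r = 0 := by rw [← hlen v, ← huv, hlen u, hu]
        rw [hconn.dist_eq_zero_iff.1 hu, hconn.dist_eq_zero_iff.1 h1]
      | succ k ih =>
        intro u v hu huv
        have h1 : G.dist v r = k + 1 := by rw [← hlen v, ← huv, hlen u, hu]
        have hur : u ≠ r := by
          intro h
          rw [h, dist_self] at hu
          omega
        have hvr : v ≠ r := by
          intro h
          rw [h, dist_self] at h1
          omega
        rw [hsv u hur, hsv v hvr] at huv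
        obtain ⟨h2, h3⟩ := List.append_inj' huv rfl
        have h4 : par u = par v := ih (par u) (par v) (by have := (hpar u hur).2; omega) h2
        have h5 : b u = b v := by simpa using h3
        apply hF (par u) ⟨hur, rfl⟩ ⟨hvr, h4.symm⟩
        simp only [hb] at h5
        rw [← h4] at h5
        exact h5
    exact fun u v huv => this _ u v rfl huv
  · have : ∀ n : ℕ, ∀ v, G.dist v r = n → ∀ k, ∃ u, s u = (s v).take k := by
      intro n
      induction n with
      | zero =>
        intro v hv k
        refine ⟨r, ?_⟩
        rw [hconn.dist_eq_zero_iff.1 hv, hsr]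
        simp
      | succ n ih =>
        intro v hv k
        have hvr : v ≠ r := by
          intro h
          rw [h, dist_self] at hv
          omega
        have hpd : G.dist (par v) r = n := by
          have := (hpar v hvr).2
          omega
        by_cases hk : k ≤ n
        · obtain ⟨u, hu⟩ := ih (par v) hpd k
          refine ⟨u, ?_⟩
          rw [hu, hsv v hvr, List.take_append_of_le_length (by rw [hlen, hpd]; exact hk)]
        · refine ⟨v, ?_⟩
          rw [List.take_of_length_le (by rw [hlen, hv]; omega)]
    exact fun v k => this _ v rfl k
  · intro u v huv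
    rcases hedge u v huv with ⟨h1, h2⟩ | ⟨h1, h2⟩
    · left
      exact ⟨b v, by rw [hsv v h1, h2]⟩
    · right
      exact ⟨b u, by rw [hsv u h1, h2]⟩

end Pool.Agent.Work.MP_bf01b2_co
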