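import Pool.Agent.Work.MP_bf01b2_co.Main
import Pool.Agent.Work.MP_bf01b2_co.Tree
import Pool.Agent.Work.MP_bf01b2_co.Num
import Pool.Agent.Work.MP_bf01b2_co.Assemble

/-!
# Binary trees are subgraphs of the hypercube of dimension `n + O(sqrt (n log n))`

Every tree of maximum degree at most `3` with at most `2 ^ n` vertices is a subgraph of `Q_m` for
every `m ≥ n + C sqrt (n log n)`, with an absolute constant `C`.  (The conjecture of Bhatt et al.
asks for `m = n + 1`.)

Idea of the proof.  The tree is a prefix closed set of bit strings.  The levels are cut into slabs
of height `W`; the slab `k` uses the block `k mod B` of coordinates.  On most levels one child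
flips a coordinate of the block and the other child flips a shared coordinate; on the first
`O(log n)` levels of every slab the two children flip two different coordinates of a group of `16`.
Which coordinates are flipped is chosen piece by piece, by a greedy algorithm controlled by a
potential function which counts tuples of far apart vertices in the same fibre of the cube.
-/

set_option autoImplicit false

namespace Pool.Agent.Results.MP_bf01b2_co.AsymptoticDimension

open Pool.Agent.Work.MP_bf01b2_co

/-- Every tree of maximum degree at most `3` on at most `2 ^ n` vertices is isomorphic to a
subgraph of the hypercube of dimension `m`, for every `m ≥ n + C sqrt (n log n)`. -/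
theorem result :
    ∃ C : ℝ, ∀ n : ℕ, 2 ≤ n →
      ∀ (V : Type) [Fintype V] [DecidableEq V] (G : SimpleGraph V) [DecidableRel G.Adj],
        G.IsTree → (∀ v : V, G.degree v ≤ 3) → Fintype.card V ≤ 2 ^ n →
          ∀ m : ℕ, (n : ℝ) + C * Real.sqrt (n * Real.log n) ≤ m →
            ∃ f : G →g SimpleGraph.fromRel (fun x y : Fin m → Bool => hammingDist x y = 1),
              Function.Injective f :=
  assemble core treeStr params

end Pool.Agent.Results.MP_bf01b2_co.AsymptoticDimension
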