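import Pool.Agent.Work.MP_bf01b2_co.Stmts

/-!
# MP_bf01b2_co : basic lemmas about positions
-/

set_option autoImplicit false

namespace Pool.Agent.Work.MP_bf01b2_co

variable {W B K : ℕ}

lemma co_depth (t x : ℕ) : (co W B K t x).2.1 = t % W := by
  unfold co; split_ifs <;> rfl

lemma co_fst (t x : ℕ) (h : (co W B K t x).1 < B) : (co W B K t x).1 = t / W % B := by
  unfold co at h ⊢
  split_ifs at h ⊢ <;> simp_all

lemma co_pool (t x : ℕ) (h : t % W < K) : co W B K t x = (t / W % B, t % W, x % 16) := by
  unfold co; simp [h]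

lemma cd_depth (ω : List Bool → Fin W → Fin 16) (v : List Bool) (t : ℕ) :
    (cd B K ω v t).2.1 = t % W := co_depth _ _

lemma cd_fst (ω : List Bool → Fin W → Fin 16) (v : List Bool) (t : ℕ)
    (h : (cd B K ω v t).1 < B) : (cd B K ω v t).1 = t / W % B := co_fst _ _ h

lemma getD_take (v : List Bool) (s t : ℕ) (h : t < s) :
    (v.take s).getD t false = v.getD t false := by
  simp [List.getD_eq_getElem?_getD, List.getElem?_take, h]

lemma cd_take (hW : 0 < W) (ω : List Bool → Fin W → Fin 16) (v : List Bool) (s t : ℕ)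
    (h : t < s) : cd B K ω (v.take s) t = cd B K ω v t := by
  unfold cd
  rw [getD_take v s t h, List.take_take]
  have : min (t / W * W) s = t / W * W := by
    have := Nat.div_mul_le_self t W
    omega
  rw [this]

lemma cd_congr (ω ω' : List Bool → Fin W → Fin 16) (v : List Bool) (t : ℕ)
    (h : ω (v.take (t / W * W)) = ω' (v.take (t / W * W))) :
    cd B K ω v t = cd B K ω' v t := by
  unfold cd; rw [h]

lemma P_congr (ω ω' : List Bool → Fin W → Fin 16) (v : List Bool)
    (h : ∀ t, t * W < v.length → ω (v.take (t * W)) = ω' (v.take (t * W))) (c : Co) :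
    P B K ω v c = P B K ω' v c := by
  unfold P
  apply Finset.sum_congr rfl
  intro t ht
  rw [Finset.mem_range] at ht
  rw [cd_congr ω ω' v t (h _ (lt_of_le_of_lt (Nat.div_mul_le_self t W) ht))]

lemma P_take (hW : 0 < W) (ω : List Bool → Fin W → Fin 16) (v : List Bool) (s : ℕ)
    (hs : s ≤ v.length) (c : Co) :
    P B K ω v c = P B K ω (v.take s) c +
      ∑ t ∈ Finset.Ico s v.length, if cd B K ω v t = c then 1 else 0 := by
  unfold P
  rw [List.length_take, min_eq_left hs, ← Finset.sum_range_add_sum_Ico _ hs]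
  congr 1
  apply Finset.sum_congr rfl
  intro t ht
  rw [Finset.mem_range] at ht
  rw [cd_take hW ω v s t ht]

/-- Main evaluation lemma: on `B` consecutive slabs a coarse coordinate is flipped at most once. -/
lemma P_span (hW : 0 < W) (ω : List Bool → Fin W → Fin 16) (v : List Bool) (a q : ℕ) (c : Co)
    (h1 : a * W ≤ v.length) (h2 : v.length ≤ (a + B) * W) (hc : c.1 < B)
    (hi : c.2.1 < W) (hq1 : a ≤ q) (hq2 : q < a + B) (hq : q % B = c.1) :
    P B K ω v c = P B K ω (v.take (a * W)) c +
      if q * W + c.2.1 < v.length ∧ cd B K ω v (q * W + c.2.1) = c then 1 else 0 := by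
  rw [P_take hW ω v (a * W) h1]
  congr 1
  have key : ∀ t, a * W ≤ t → t < v.length → cd B K ω v t = c → t = q * W + c.2.1 := by
    intro t ht1 ht2 ht
    have e1 : t % W = c.2.1 := by rw [← ht]; exact (cd_depth ω v t).symm
    have e2 : t / W % B = c.1 := by rw [← ht]; rw [← ht] at hc; exact (cd_fst ω v t hc).symm
    have e3 : a ≤ t / W := (Nat.le_div_iff_mul_le hW).2 ht1
    have e4 : t / W < a + B := (Nat.div_lt_iff_lt_mul hW).2 (lt_of_lt_of_le ht2 h2)
    have e5 : t / W = q := by
      have h5 : t / W % B = q % B := by rw [e2, hq]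
      rcases le_total (t / W) q with hle | hle
      · have : (q - t / W) % B = 0 := (Nat.modEq_iff_dvd' hle).1 h5 |> Nat.mod_eq_zero_of_dvd
        have hlt : q - t / W < B := by omega
        rw [Nat.mod_eq_of_lt hlt] at this
        omega
      · have : (t / W - q) % B = 0 := (Nat.modEq_iff_dvd' hle).1 h5.symm |> Nat.mod_eq_zero_of_dvd
        have hlt : t / W - q < B := by omega
        rw [Nat.mod_eq_of_lt hlt] at this
        omega
    have := Nat.div_add_mod t W
    rw [e1, e5] at this
    rw [← this, mul_comm]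
  split_ifs with h
  · rw [Finset.sum_eq_single (q * W + c.2.1)]
    · rw [if_pos h.2]
    · intro t ht hne
      rw [Finset.mem_Ico] at ht
      rw [if_neg]
      intro hcd
      exact hne (key t ht.1 ht.2 hcd)
    · intro hn
      exfalso
      apply hn
      rw [Finset.mem_Ico]
      refine ⟨?_, h.1⟩
      calc a * W ≤ q * W := Nat.mul_le_mul_right _ hq1
        _ ≤ _ := Nat.le_add_right _ _
  · apply Finset.sum_eq_zero
    intro t ht
    rw [Finset.mem_Ico] at ht
    rw [if_neg]
    intro hcd
    have := key t ht.1 ht.2 hcd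
    apply h
    rw [← this]
    exact ⟨ht.2, hcd⟩

/-- Coordinates of depth `≥ W` are never flipped. -/
lemma P_depth (hW : 0 < W) (ω : List Bool → Fin W → Fin 16) (v : List Bool) (c : Co)
    (hi : W ≤ c.2.1) : P B K ω v c = 0 := by
  unfold P
  apply Finset.sum_eq_zero
  intro t _
  rw [if_neg]
  intro h
  have := cd_depth (B := B) (K := K) ω v t
  rw [h] at this
  have := Nat.mod_lt t hW
  omega

/-- Outside the block of the current slab nothing changes. -/
lemma P_out (hW : 0 < W) (ω : List Bool → Fin W → Fin 16) (v : List Bool) (k : ℕ) (c : Co)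
    (h1 : k * W ≤ v.length) (h2 : v.length ≤ (k + 1) * W) (hc : c.1 < B) (hck : c.1 ≠ k % B) :
    P B K ω v c = P B K ω (v.take (k * W)) c := by
  rcases Nat.lt_or_ge c.2.1 W with hi | hi
  · have hB : 0 < B := by omega
    -- the unique q in [k, k + B) with q % B = c.1
    obtain ⟨q, hq1, hq2, hq⟩ : ∃ q, k ≤ q ∧ q < k + B ∧ q % B = c.1 := by
      refine ⟨k + (c.1 + (B - k % B)) % B, by omega, ?_, ?_⟩
      · have := Nat.mod_lt (c.1 + (B - k % B)) hB
        omega
      · have hk := Nat.mod_lt k hB
        rw [Nat.add_mod, Nat.mod_mod, ← Nat.add_mod]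
        have : k + (c.1 + (B - k % B)) = c.1 + B * (k / B + 1) := by
          have := Nat.div_add_mod k B
          rw [mul_add]
          omega
        rw [this, Nat.add_mul_mod_self_left, Nat.mod_eq_of_lt hc]
    rw [P_span hW ω v k q c h1 (h2.trans (Nat.mul_le_mul_right _ (by omega))) hc hi hq1 hq2 hq]
    rw [if_neg, add_zero]
    rintro ⟨h3, _⟩
    have hne : q ≠ k := by
      rintro rfl
      exact hck hq.symm
    have : (k + 1) * W ≤ q * W := Nat.mul_le_mul_right _ (by omega)
    omega
  · rw [P_depth hW ω v c hi, P_depth hW ω _ c hi]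

/-- Inside the block of the current slab. -/
lemma P_in (hW : 0 < W) (ω : List Bool → Fin W → Fin 16) (v : List Bool) (k : ℕ) (c : Co)
    (hB : 0 < B)
    (h1 : k * W ≤ v.length) (h2 : v.length ≤ (k + 1) * W) (hck : c.1 = k % B) (hi : c.2.1 < W) :
    P B K ω v c = P B K ω (v.take (k * W)) c +
      if k * W + c.2.1 < v.length ∧ cd B K ω v (k * W + c.2.1) = c then 1 else 0 := by
  have hc : c.1 < B := by rw [hck]; exact Nat.mod_lt _ hB
  exact P_span hW ω v k k c h1 (h2.trans (Nat.mul_le_mul_right _ (by omega))) hc hi le_rfl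
    (by omega) hck.symm

lemma div_mul_add_mod (hW : 0 < W) (k i : ℕ) (hi : i < W) : (k * W + i) / W = k ∧ (k * W + i) % W = i := by
  constructor
  · rw [add_comm, Nat.add_mul_div_right _ _ hW, Nat.div_eq_of_lt hi, zero_add]
  · rw [add_comm, Nat.add_mul_mod_self_right, Nat.mod_eq_of_lt hi]

end Pool.Agent.Work.MP_bf01b2_co
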