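import Pool.Agent.Work.MP_bf01b2_co.Defs

/-!
# MP_bf01b2_co : statements of the items
-/

set_option autoImplicit false

namespace Pool.Agent.Work.MP_bf01b2_co

/-- The combinatorial core. -/
def Core : Prop := ∀ W B K L n : ℕ, 0 < K → K ≤ W → 8 ≤ B → n ≤ (B - 4) * W →
  2 * L * B ≤ 2 ^ K → 2 * (W + 15 * K) + 2 ≤ L →
  ∀ T : Finset (List Bool), PrefClosed T → T.card ≤ 2 ^ n →
    ∃ ω : List Bool → Fin W → Fin 16, ∀ u ∈ T, ∀ v ∈ T,
      (∀ c ∈ allCo W B K, P B K ω u c = P B K ω v c) → u = v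

/-- Item T: a tree of maximum degree at most three is a prefix closed set of bit strings. -/
def TreeStr : Prop := ∀ (V : Type) [Fintype V] [DecidableEq V] (G : SimpleGraph V)
  [DecidableRel G.Adj], G.IsTree → (∀ v, G.degree v ≤ 3) →
  ∃ s : V → List Bool, Function.Injective s ∧ (∀ (v : V) (k : ℕ), ∃ u, s u = (s v).take k) ∧
    ∀ u v, G.Adj u v → (∃ e, s v = s u ++ [e]) ∨ (∃ e, s u = s v ++ [e])

/-- Item N: choice of the parameters. -/
def Params : Prop := ∃ C : ℝ, ∀ n : ℕ, 2 ≤ n → ∃ W B K L : ℕ, 0 < K ∧ K ≤ W ∧ 8 ≤ B ∧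
  n ≤ (B - 4) * W ∧ 2 * L * B ≤ 2 ^ K ∧ 2 * (W + 15 * K) + 2 ≤ L ∧
  ((B * (W + 15 * K) + (W - K) : ℕ) : ℝ) ≤ n + C * Real.sqrt (n * Real.log n)

/-- The final statement. -/
def FinalStatement : Prop := ∃ C : ℝ, ∀ n : ℕ, 2 ≤ n →
  ∀ (V : Type) [Fintype V] [DecidableEq V] (G : SimpleGraph V) [DecidableRel G.Adj],
    G.IsTree → (∀ v : V, G.degree v ≤ 3) → Fintype.card V ≤ 2 ^ n →
      ∀ m : ℕ, (n : ℝ) + C * Real.sqrt (n * Real.log n) ≤ m →
        ∃ f : G →g SimpleGraph.fromRel (fun x y : Fin m → Bool => hammingDist x y = 1),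
          Function.Injective f

end Pool.Agent.Work.MP_bf01b2_co
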