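import Pool.Agent.Work.MP_bf01b2_co.Greedy

/-!
# MP_bf01b2_co : few options are in conflict
-/

set_option autoImplicit false

namespace Pool.Agent.Work.MP_bf01b2_co

variable {W B K : ℕ}

/-- The complete slabs used for `v`. -/
def used (W B : ℕ) (v : List Bool) : Finset ℕ :=
  Finset.Ico ((v.length - 1) / W + 2 - B) ((v.length - 1) / W)

/-- The boundary prefixes of `v` in the used slabs. -/
def U (W B : ℕ) (v : List Bool) : Finset (List Bool) :=
  (used W B v).image fun t => v.take (t * W)

lemma mod_ne_of_lt (s t : ℕ) (h1 : s < t) (h2 : t < s + B) : s % B ≠ t % B := by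
  intro h
  have : (t - s) % B = 0 := (Nat.modEq_iff_dvd' h1.le).1 h |> Nat.mod_eq_zero_of_dvd
  rw [Nat.mod_eq_of_lt (by omega)] at this
  omega

/-- If `u` and `v` branch before `m`, there is a branching level. -/
lemma exists_branch (u v : List Bool) (m l : ℕ) (hu : m ≤ u.length) (hv : m ≤ v.length)
    (hne : u.take m ≠ v.take m) (hl : u.take l = v.take l) :
    ∃ s, l ≤ s ∧ s < m ∧ u.take s = v.take s ∧ u.getD s false ≠ v.getD s false := by
  classical
  have hex : ∃ s, u.take s ≠ v.take s := ⟨m, hne⟩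
  set s := Nat.find hex with hsdef
  have hs1 : u.take s ≠ v.take s := Nat.find_spec hex
  have hs0 : s ≠ 0 := by
    intro h
    rw [h] at hs1
    simp at hs1
  have hsm : s ≤ m := Nat.find_min' hex hne
  have hs2 : u.take (s - 1) = v.take (s - 1) := by
    by_contra hn
    exact Nat.find_min hex (show s - 1 < Nat.find hex by omega) hn
  have hls : l < s := by
    by_contra hn
    push Not at hn
    apply hs1
    have := congrArg (List.take s) hl
    rwa [List.take_take, List.take_take, min_eq_left hn] at this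
  refine ⟨s - 1, by omega, by omega, hs2, ?_⟩
  intro hb
  apply hs1
  obtain ⟨r, hr⟩ : ∃ r, s = r + 1 := ⟨s - 1, by omega⟩
  rw [hr, Nat.add_sub_cancel] at hb hs2
  rw [hr, List.take_add_one, List.take_add_one, hs2]
  congr 1
  have hur : r < u.length := by omega
  have hvr : r < v.length := by omega
  rw [List.getD_eq_getElem?_getD, List.getD_eq_getElem?_getD,
    List.getElem?_eq_getElem hur, List.getElem?_eq_getElem hvr] at hb
  rw [List.getElem?_eq_getElem hur, List.getElem?_eq_getElem hvr]
  simpa using hb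

/-- Vertices of one cluster which have passed the slab `t1` share their boundary prefix there. -/
lemma share (hW : 0 < W) (hB : 2 ≤ B) (ω : List Bool → Fin W → Fin 16) (w : List Bool) (k : ℕ)
    (t t1 : ℕ) (ht1k : t1 % B = k % B) (u v : List Bool)
    (huv : u.take (t * W) = v.take (t * W))
    (hu1 : t1 * W < u.length) (hv1 : t1 * W < v.length)
    (hu2 : u.length ≤ (t + B - 1) * W) (hv2 : v.length ≤ (t + B - 1) * W)
    (hu : Fib B K ω k w u) (hv : Fib B K ω k w v) : u.take (t1 * W) = v.take (t1 * W) := by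
  by_contra hne
  obtain ⟨s, hs1, hs2, hs3, hs4⟩ := exists_branch u v (t1 * W) (t * W) hu1.le hv1.le hne huv
  have hst : t ≤ s / W := (Nat.le_div_iff_mul_le hW).2 hs1
  have hst1 : s / W < t1 := (Nat.div_lt_iff_lt_mul hW).2 hs2
  have ht1B : t1 < t + B - 1 := Nat.lt_of_mul_lt_mul_right (lt_of_lt_of_le hu1 hu2)
  have hle : (t + B - 1) * W ≤ (s / W + B) * W := Nat.mul_le_mul_right _ (by omega)
  obtain ⟨c, hc1, hc2⟩ := branch (K := K) hW (by omega) ω u v s (by omega) (by omega) hs3 hs4
    (hu2.trans hle) (hv2.trans hle)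
  apply hc2
  have h1 : c.1 < B := by rw [hc1]; exact Nat.mod_lt _ (by omega)
  have h2 : c.1 ≠ k % B := by
    rw [hc1, ← ht1k]
    exact mod_ne_of_lt _ _ hst1 (by omega)
  have h3 : c.1 ≠ (k + 1) % B := by
    have : (k + 1) % B = (t1 + 1) % B := by
      rw [Nat.add_mod, ← ht1k, ← Nat.add_mod]
    rw [hc1, this]
    exact mod_ne_of_lt _ _ (by omega) (by omega)
  rw [hu c h1 h2 h3, hv c h1 h2 h3]

/-- Existence of the slab `≡ k` in `[t, t + B)`. -/
lemma exists_slab (hB : 0 < B) (t b : ℕ) (hb : b < B) :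
    ∃ q, t ≤ q ∧ q < t + B ∧ q % B = b := by
  refine ⟨t + (b + (B - t % B)) % B, by omega, ?_, ?_⟩
  · have := Nat.mod_lt (b + (B - t % B)) hB
    omega
  · have hk := Nat.mod_lt t hB
    rw [Nat.add_mod, Nat.mod_mod, ← Nat.add_mod]
    have : t + (b + (B - t % B)) = b + B * (t / B + 1) := by
      have := Nat.div_add_mod t B
      rw [mul_add]
      omega
    rw [this, Nat.add_mul_mod_self_left, Nat.mod_eq_of_lt hb]

/-- The group contents of one cluster. -/
lemma cluster_contents (hW : 0 < W) (hB : 2 ≤ B) (hKW : K ≤ W)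
    (ω : List Bool → Fin W → Fin 16) (w : List Bool)
    (k : ℕ) (y : List Bool) (t : ℕ) :
    ∃ r : ℕ → ℕ, ∀ v : List Bool, v.take (t * W) = y → t * W ≤ v.length →
      v.length ≤ (t + B - 1) * W → Fib B K ω k w v → ∀ i < K,
        (∀ j < 16, P B K ω v (k % B, i, j) = P B K ω y (k % B, i, j)) ∨
        (∃ e : Bool, ∀ j < 16, P B K ω v (k % B, i, j) = P B K ω y (k % B, i, j) +
          if (r i + e.toNat) % 16 = j then 1 else 0) := by
  have hmB := Nat.mod_lt k (show 0 < B by omega)
  obtain ⟨t1, h1, h2, h3⟩ := exists_slab (show 0 < B by omega) t (k % B) hmB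
  classical
  by_cases hex : ∃ v : List Bool, v.take (t * W) = y ∧ t1 * W < v.length ∧
      v.length ≤ (t + B - 1) * W ∧ Fib B K ω k w v
  · obtain ⟨v0, hv0, hv01, hv02, hv03⟩ := hex
    refine ⟨fun i => oval (ω (v0.take (t1 * W))) i, ?_⟩
    intro v hv hvl1 hvl2 hvF i hi
    by_cases hlt : t1 * W + i < v.length
    · right
      have hs := share hW hB ω w k t t1 h3 v v0 (by rw [hv, hv0]) (by omega) hv01 hvl2 hv02
        hvF hv03
      refine ⟨v.getD (t1 * W + i) false, ?_⟩
      intro j hj
      have hle : (t + B - 1) * W ≤ (t + B) * W := Nat.mul_le_mul_right _ (by omega)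
      rw [P_span hW ω v t t1 (k % B, i, j) hvl1 (hvl2.trans hle) hmB (by show i < W; omega) h1
        h2 h3, hv]
      congr 1
      show (if t1 * W + i < v.length ∧ cd B K ω v (t1 * W + i) = (k % B, i, j)
        then (1 : ZMod 2) else 0) = _
      have hdm := div_mul_add_mod hW t1 i (by omega)
      have hcd : cd B K ω v (t1 * W + i) = (k % B, i,
          (oval (ω (v0.take (t1 * W))) i + (v.getD (t1 * W + i) false).toNat) % 16) := by
        unfold cd
        rw [co_pool _ _ (by rw [hdm.2]; exact hi), hdm.1, hdm.2, hs, h3]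
      rw [hcd]
      simp [hlt]
    · left
      intro j hj
      have hle : (t + B - 1) * W ≤ (t + B) * W := Nat.mul_le_mul_right _ (by omega)
      rw [P_span hW ω v t t1 (k % B, i, j) hvl1 (hvl2.trans hle) hmB (by show i < W; omega) h1
        h2 h3, hv, if_neg, add_zero]
      rintro ⟨h, _⟩
      exact hlt h
  · refine ⟨fun _ => 0, ?_⟩
    intro v hv hvl1 hvl2 hvF i hi
    left
    intro j hj
    have hle : (t + B - 1) * W ≤ (t + B) * W := Nat.mul_le_mul_right _ (by omega)
    rw [P_span hW ω v t t1 (k % B, i, j) hvl1 (hvl2.trans hle) hmB (by show i < W; omega) h1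
      h2 h3, hv, if_neg, add_zero]
    rintro ⟨h, _⟩
    exact hex ⟨v, hv, lt_of_le_of_lt (Nat.le_add_right _ _) h, hvl2, hvF⟩

/-- For fixed contents at most one value of the option is hit. -/
lemma hit_unique (f g : ℕ → ZMod 2) (n : ℕ) (x x' : Fin 16)
    (h : ∀ j < 16, f j = g j + if ((x : ℕ) + n) % 16 = j then 1 else 0)
    (h' : ∀ j < 16, f j = g j + if ((x' : ℕ) + n) % 16 = j then 1 else 0) : x = x' := by
  have h1 := h (((x : ℕ) + n) % 16) (Nat.mod_lt _ (by norm_num))
  have h2 := h' (((x : ℕ) + n) % 16) (Nat.mod_lt _ (by norm_num))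
  rw [if_pos rfl] at h1
  rw [h1] at h2
  have h3 : ((x' : ℕ) + n) % 16 = ((x : ℕ) + n) % 16 := by
    by_contra hn
    rw [if_neg hn] at h2
    exact one_ne_zero (add_left_cancel h2)
  have hx := x.2
  have hx' := x'.2
  ext
  omega

/-- The three possible extra contents. -/
def extra (r : ℕ) (e : Option Bool) (j : ℕ) : ZMod 2 :=
  match e with
  | none => 0
  | some a => if (r + a.toNat) % 16 = j then 1 else 0

/-- The candidate values of the option at a pool depth. -/
def Cand (f g : ℕ → ZMod 2) (r : ℕ) (e : Option Bool) (ι : Bool) (x : Fin 16) : Prop :=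
  ∀ j < 16, f j + extra r e j = g j + if ((x : ℕ) + ι.toNat) % 16 = j then 1 else 0

lemma card_six (f g : ℕ → ZMod 2) (r : ℕ) (A : Finset (Fin 16))
    (hA : ∀ x ∈ A, ∃ e ι, Cand f g r e ι x) : A.card ≤ 6 := by
  classical
  have hsub : A ⊆ (Finset.univ : Finset (Option Bool × Bool)).biUnion fun p =>
        Finset.univ.filter fun x : Fin 16 => Cand f g r p.1 p.2 x := by
    intro x hx
    obtain ⟨e, ι, h⟩ := hA x hx
    rw [Finset.mem_biUnion]
    exact ⟨(e, ι), Finset.mem_univ _, Finset.mem_filter.2 ⟨Finset.mem_univ _, h⟩⟩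
  refine (Finset.card_le_card hsub).trans ?_
  refine Finset.card_biUnion_le.trans ?_
  have : ∀ p ∈ (Finset.univ : Finset (Option Bool × Bool)),
      (Finset.univ.filter fun x : Fin 16 => Cand f g r p.1 p.2 x).card ≤ 1 := by
    intro p _
    rw [Finset.card_le_one]
    intro x hx x' hx'
    rw [Finset.mem_filter] at hx hx'
    exact hit_unique (fun j => f j + extra r p.1 j) g p.2.toNat x x' hx.2 hx'.2
  refine (Finset.sum_le_sum this).trans ?_
  simp

lemma prod_ite_pow (hKW : K ≤ W) (a b : ℕ) :
    ∏ i : Fin W, (if (i : ℕ) < K then a else b) = a ^ K * b ^ (W - K) := by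
  rw [← Finset.prod_range (fun i => if i < K then a else b), Finset.prod_ite]
  simp only [Finset.prod_const]
  have h1 : (Finset.range W).filter (fun i => i < K) = Finset.range K := by
    ext i; simp only [Finset.mem_filter, Finset.mem_range]; omega
  have h2 : (Finset.range W).filter (fun i => ¬ i < K) = Finset.Ico K W := by
    ext i; simp only [Finset.mem_filter, Finset.mem_range, Finset.mem_Ico]; omega
  rw [h1, h2, Finset.card_range, Nat.card_Ico]

/-- The options hit by one cluster. -/
lemma cluster_card (hW : 0 < W) (hB : 2 ≤ B) (hKW : K ≤ W)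
    (ω : List Bool → Fin W → Fin 16) (w : List Bool)
    (k : ℕ) (y : List Bool) (t : ℕ) (S : Finset (Fin W → Fin 16))
    (hS : ∀ o ∈ S, ∃ v : List Bool, v.take (t * W) = y ∧ t * W ≤ v.length ∧
      v.length ≤ (t + B - 1) * W ∧ Fib B K ω k w v ∧ Hit B K ω k w v o) :
    S.card ≤ 6 ^ K * 16 ^ (W - K) := by
  classical
  obtain ⟨r, hr⟩ := cluster_contents (K := K) hW hB hKW ω w k y t
  let A : Fin W → Finset (Fin 16) := fun i =>
    if (i : ℕ) < K then Finset.univ.filter fun x : Fin 16 => ∃ e ι,
      Cand (fun j => P B K ω y (k % B, (i : ℕ), j)) (fun j => P B K ω w (k % B, (i : ℕ), j))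
        (r i) e ι x
    else Finset.univ
  have hsub : S ⊆ Fintype.piFinset A := by
    intro o ho
    rw [Fintype.mem_piFinset]
    intro i
    obtain ⟨v, hv1, hv2, hv3, hv4, ι, hι⟩ := hS o ho
    show o i ∈ (if (i : ℕ) < K then _ else _ : Finset (Fin 16))
    split_ifs with hi
    · rw [Finset.mem_filter]
      refine ⟨Finset.mem_univ _, ?_⟩
      have hov : oval o i = (o i : ℕ) := by unfold oval; simp
      have hh := hι i hi
      rw [hov] at hh
      rcases hr v hv1 hv2 hv3 hv4 i hi with h | ⟨e, h⟩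
      · refine ⟨none, ι i, fun j hj => ?_⟩
        show P B K ω y (k % B, (i : ℕ), j) + 0 = _
        rw [add_zero, ← h j hj, hh j hj]
      · refine ⟨some e, ι i, fun j hj => ?_⟩
        show P B K ω y (k % B, (i : ℕ), j) + (if (r i + e.toNat) % 16 = j then 1 else 0) = _
        rw [← h j hj, hh j hj]
    · exact Finset.mem_univ _
  refine (Finset.card_le_card hsub).trans ?_
  rw [Fintype.card_piFinset, ← prod_ite_pow hKW 6 16]
  apply Finset.prod_le_prod'
  intro i _
  show (if (i : ℕ) < K then _ else _ : Finset (Fin 16)).card ≤ _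
  split_ifs with hi
  · apply card_six (fun j => P B K ω y (k % B, (i : ℕ), j))
      (fun j => P B K ω w (k % B, (i : ℕ), j)) (r i)
    intro x hx
    rw [Finset.mem_filter] at hx
    exact hx.2
  · simp

end Pool.Agent.Work.MP_bf01b2_co
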