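import Mathlib

/-!
# MP_bf01b2_co : binary trees in hypercubes, `n + O(sqrt (n log n))`

Definitions for the construction.  Parameters: `W` (slab height), `B` (number of blocks),
`K` (pool levels per slab).  A vertex of the tree is a bit string `v : List Bool`.
A coordinate is a triple `(block, depth, slot)`; block `B` is the shared fine block.
-/

set_option autoImplicit false

namespace Pool.Agent.Work.MP_bf01b2_co

/-- Coordinates: `(block, depth, slot)`. -/
abbrev Co := ℕ × ℕ × ℕ

/-- Value of an option at depth `i`. -/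
def oval {W : ℕ} (o : Fin W → Fin 16) (i : ℕ) : ℕ := if h : i < W then (o ⟨i, h⟩ : ℕ) else 0

/-- The coordinate flipped at time `t` (block `t / W % B`, depth `t % W`) if the option value plus
the bit is `x`. -/
def co (W B K t x : ℕ) : Co :=
  if t % W < K then (t / W % B, t % W, x % 16)
  else if x % 2 = 1 then (t / W % B, t % W, 0) else (B, t % W, 0)

/-- The coordinate flipped by the edge from `y` to `y ++ [e]`. -/
def coord {W : ℕ} (B K : ℕ) (ω : List Bool → Fin W → Fin 16) (y : List Bool) (e : Bool) : Co :=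
  co W B K y.length (oval (ω (y.take (y.length / W * W))) (y.length % W) + e.toNat)

/-- The coordinate flipped by `v` at time `t`. -/
def cd {W : ℕ} (B K : ℕ) (ω : List Bool → Fin W → Fin 16) (v : List Bool) (t : ℕ) : Co :=
  co W B K t (oval (ω (v.take (t / W * W))) (t % W) + (v.getD t false).toNat)

/-- Position of the vertex `v` in the cube. -/
def P {W : ℕ} (B K : ℕ) (ω : List Bool → Fin W → Fin 16) (v : List Bool) (c : Co) : ZMod 2 :=
  ∑ t ∈ Finset.range v.length, if cd B K ω v t = c then 1 else 0

/-- The set of all coordinates used. -/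
def coarse (W B K : ℕ) : Finset Co :=
  (Finset.range B ×ˢ Finset.range K ×ˢ Finset.range 16) ∪
    (Finset.range B ×ˢ Finset.Ico K W ×ˢ {0})

/-- All coordinates. -/
def allCo (W B K : ℕ) : Finset Co :=
  coarse W B K ∪ ({B} ×ˢ Finset.Ico K W ×ˢ {0})

/-- `T` is closed under taking prefixes. -/
def PrefClosed (T : Finset (List Bool)) : Prop := ∀ v ∈ T, ∀ s : ℕ, v.take s ∈ T

/-- `v` is placed if all its proper boundary prefixes are processed. -/
def Placed (W : ℕ) (D : Finset (List Bool)) (v : List Bool) : Prop :=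
  ∀ t : ℕ, t * W < v.length → v.take (t * W) ∈ D

/-- The invariant. -/
def Inv {W : ℕ} (B K : ℕ) (T D : Finset (List Bool)) (ω : List Bool → Fin W → Fin 16) : Prop :=
  ∀ k : ℕ, B ≤ k → ∀ u ∈ T, u.length = k * W → Placed W D u →
    ∀ v ∈ T, v.length ≤ k * W → Placed W D v →
      u.take ((k + 1 - B) * W) ≠ v.take ((k + 1 - B) * W) →
        ∃ c : Co, c.1 < B ∧ c.1 ≠ k % B ∧ P B K ω u c ≠ P B K ω v c

end Pool.Agent.Work.MP_bf01b2_co
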