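import Pool.Agent.Work.MP_bf01b2_co.Count

/-!
# MP_bf01b2_co : at most half of the options are in conflict
-/

set_option autoImplicit false

namespace Pool.Agent.Work.MP_bf01b2_co

variable {W B K : ℕ}

lemma card_U_le (hB : 2 ≤ B) (v : List Bool) : (U W B v).card ≤ B - 2 := by
  unfold U
  refine Finset.card_image_le.trans ?_
  unfold used
  rw [Nat.card_Ico]
  omega

lemma slab_bounds (hW : 0 < W) (v : List Bool) (hv : 0 < v.length) :
    (v.length - 1) / W * W < v.length ∧ v.length ≤ ((v.length - 1) / W + 1) * W := by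
  constructor
  · have := Nat.div_mul_le_self (v.length - 1) W
    omega
  · have := Nat.lt_div_mul_add (a := v.length - 1) hW
    rw [add_mul, one_mul]
    omega

lemma slab_ge (hW : 0 < W) (v : List Bool) (hv : (B - 2) * W < v.length) :
    B - 2 ≤ (v.length - 1) / W := (Nat.le_div_iff_mul_le hW).2 (by omega)

lemma mem_U (hW : 0 < W) (v y : List Bool) (hy : y ∈ U W B v) :
    ∃ t, t ∈ used W B v ∧ v.take (t * W) = y ∧ y.length = t * W ∧ t * W < v.length := by
  unfold U at hy
  rw [Finset.mem_image] at hy
  obtain ⟨t, ht, hty⟩ := hy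
  have ht' := ht
  unfold used at ht'
  rw [Finset.mem_Ico] at ht'
  have hpos : 0 < v.length := by
    rcases Nat.eq_zero_or_pos v.length with h | h
    · rw [h] at ht'; simp at ht'
    · exact h
  have h1 := (slab_bounds hW v hpos).1
  have h2 : t * W ≤ (v.length - 1) / W * W := Nat.mul_le_mul_right _ ht'.2.le
  refine ⟨t, ht, hty, ?_, by omega⟩
  rw [← hty, List.length_take]
  omega

/-- Pairwise disjoint used sets. -/
def PwD (W B : ℕ) (F : Finset (List Bool)) : Prop :=
  ∀ v ∈ F, ∀ v' ∈ F, v ≠ v' → Disjoint (U W B v) (U W B v')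

theorem conf_card (hW : 0 < W) (hB : 3 ≤ B) (hKW : K ≤ W) (T D : Finset (List Bool))
    (ω : List Bool → Fin W → Fin 16) (w : List Bool) (k L : ℕ)
    (hL : 2 * L * B ≤ 2 ^ K)
    (hfam : ∀ F : Finset (List Bool), F ⊆ T →
      (∀ v ∈ F, Placed W D v ∧ Fib B K ω k w v ∧ (B - 2) * W < v.length) →
      PwD W B F → F.card < L)
    (S : Finset (Fin W → Fin 16)) (hS : ∀ o ∈ S, Conf B K T D ω k w o) :
    2 * S.card ≤ 16 ^ W := by
  classical
  set FS := T.filter (fun v => Placed W D v ∧ Fib B K ω k w v ∧ (B - 2) * W < v.length) with hFS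
  set 𝓕 := FS.powerset.filter (fun F => PwD W B F) with h𝓕
  have hne : 𝓕.Nonempty := ⟨∅, by
    rw [h𝓕, Finset.mem_filter]
    exact ⟨Finset.empty_mem_powerset _, fun v hv => absurd hv (Finset.notMem_empty _)⟩⟩
  obtain ⟨F, hF, hmax⟩ := Finset.exists_max_image 𝓕 Finset.card hne
  rw [h𝓕, Finset.mem_filter, Finset.mem_powerset] at hF
  obtain ⟨hFsub, hFdis⟩ := hF
  have hFT : F ⊆ T := fun v hv => (Finset.mem_filter.1 (hFsub hv)).1
  have hFcard : F.card < L := hfam F hFT (fun v hv => (Finset.mem_filter.1 (hFsub hv)).2) hFdis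
  set Y := insert [] (F.biUnion (U W B)) with hY
  have hYcard : Y.card ≤ L * B := by
    rw [hY]
    refine (Finset.card_insert_le _ _).trans ?_
    have h1 : (F.biUnion (U W B)).card ≤ F.card * (B - 2) :=
      Finset.card_biUnion_le_card_mul _ _ _ fun v _ => card_U_le (by omega) v
    have h2 : F.card * (B - 2) ≤ (L - 1) * B := Nat.mul_le_mul (by omega) (by omega)
    have h3 : (L - 1) * B + 1 ≤ L * B := by
      obtain ⟨l, rfl⟩ : ∃ l, L = l + 1 := ⟨L - 1, by omega⟩
      rw [Nat.add_sub_cancel, add_mul, one_mul]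
      omega
    omega
  have hcover : S ⊆ Y.biUnion fun y => S.filter fun o =>
      ∃ v : List Bool, v.take (y.length / W * W) = y ∧ y.length / W * W ≤ v.length ∧
        v.length ≤ (y.length / W + B - 1) * W ∧ Fib B K ω k w v ∧ Hit B K ω k w v o := by
    intro o ho
    obtain ⟨v, hvT, hvP, hvF, hvH⟩ := hS o ho
    rw [Finset.mem_biUnion]
    by_cases hlen : v.length ≤ (B - 2) * W
    · refine ⟨[], Finset.mem_insert_self _ _, ?_⟩
      rw [Finset.mem_filter]
      refine ⟨ho, v, ?_, ?_, ?_, hvF, hvH⟩
      · simp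
      · simp
      · simp only [List.length_nil, Nat.zero_div, zero_add]
        exact hlen.trans (Nat.mul_le_mul_right _ (by omega))
    · push Not at hlen
      have hvFS : v ∈ FS := Finset.mem_filter.2 ⟨hvT, hvP, hvF, hlen⟩
      obtain ⟨v', hv', hnd⟩ : ∃ v' ∈ F, ¬ Disjoint (U W B v) (U W B v') := by
        by_cases hvin : v ∈ F
        · refine ⟨v, hvin, ?_⟩
          rw [disjoint_self, Finset.bot_eq_empty]
          have hs := slab_ge hW v hlen
          apply Finset.Nonempty.ne_empty
          unfold U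
          rw [Finset.image_nonempty]
          unfold used
          rw [Finset.nonempty_Ico]
          omega
        · by_contra hall
          push Not at hall
          have hmem : insert v F ∈ 𝓕 := by
            rw [h𝓕, Finset.mem_filter, Finset.mem_powerset]
            refine ⟨Finset.insert_subset hvFS hFsub, ?_⟩
            intro a ha b hb hab
            rcases Finset.mem_insert.1 ha with ha | ha
            · rcases Finset.mem_insert.1 hb with hb | hb
              · exact absurd (ha.trans hb.symm) hab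
              · rw [ha]; exact hall b hb
            · rcases Finset.mem_insert.1 hb with hb | hb
              · rw [hb]; exact (hall a ha).symm
              · exact hFdis a ha b hb hab
          have := hmax _ hmem
          rw [Finset.card_insert_of_notMem hvin] at this
          omega
      rw [Finset.not_disjoint_iff] at hnd
      obtain ⟨y, hy, hy'⟩ := hnd
      obtain ⟨t, ht, hty, hyl, htv⟩ := mem_U hW v y hy
      have hdiv : y.length / W = t := by rw [hyl, Nat.mul_div_cancel _ hW]
      refine ⟨y, Finset.mem_insert_of_mem (Finset.mem_biUnion.2 ⟨v', hv', hy'⟩), ?_⟩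
      rw [Finset.mem_filter]
      refine ⟨ho, v, ?_, ?_, ?_, hvF, hvH⟩
      · rw [hdiv, hty]
      · rw [hdiv]; exact htv.le
      · rw [hdiv]
        unfold used at ht
        rw [Finset.mem_Ico] at ht
        have := (slab_bounds hW v (by omega)).2
        exact this.trans (Nat.mul_le_mul_right _ (by omega))
  have hScard : S.card ≤ L * B * (6 ^ K * 16 ^ (W - K)) := by
    refine (Finset.card_le_card hcover).trans ?_
    refine (Finset.card_biUnion_le_card_mul _ _ (6 ^ K * 16 ^ (W - K)) ?_).trans
      (Nat.mul_le_mul_right _ hYcard)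
    intro y _
    apply cluster_card (B := B) hW (by omega) hKW ω w k y (y.length / W)
    intro o ho
    exact (Finset.mem_filter.1 ho).2
  calc 2 * S.card ≤ 2 * (L * B * (6 ^ K * 16 ^ (W - K))) := Nat.mul_le_mul_left _ hScard
    _ = (2 * L * B) * (6 ^ K * 16 ^ (W - K)) := by ring
    _ ≤ 2 ^ K * (6 ^ K * 16 ^ (W - K)) := Nat.mul_le_mul_right _ hL
    _ = 12 ^ K * 16 ^ (W - K) := by
        rw [← mul_assoc, ← mul_pow]
        norm_num
    _ ≤ 16 ^ K * 16 ^ (W - K) := Nat.mul_le_mul_right _ (Nat.pow_le_pow_left (by norm_num) K)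
    _ = 16 ^ W := by rw [← pow_add]; congr 1; omega

end Pool.Agent.Work.MP_bf01b2_co
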