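import Pool.Agent.Work.MP_bf01b2_co.Near

/-!
# MP_bf01b2_co : one step of the greedy construction preserves the invariant
-/

set_option autoImplicit false

namespace Pool.Agent.Work.MP_bf01b2_co

variable {W B K : ℕ}

/-- `v` agrees with `w` outside the blocks of `k` and `k + 1`. -/
def Fib (B K : ℕ) (ω : List Bool → Fin W → Fin 16) (k : ℕ) (w v : List Bool) : Prop :=
  ∀ c : Co, c.1 < B → c.1 ≠ k % B → c.1 ≠ (k + 1) % B → P B K ω v c = P B K ω w c

/-- The pool content of `v` in block `k` is hit by the option `o` at `w`. -/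
def Hit (B K : ℕ) (ω : List Bool → Fin W → Fin 16) (k : ℕ) (w v : List Bool)
    (o : Fin W → Fin 16) : Prop :=
  ∃ ι : ℕ → Bool, ∀ i < K, ∀ j < 16, P B K ω v (k % B, i, j) =
    P B K ω w (k % B, i, j) + if (oval o i + (ι i).toNat) % 16 = j then 1 else 0

/-- Conflict of the option `o` at `w`. -/
def Conf (B K : ℕ) (T D : Finset (List Bool)) (ω : List Bool → Fin W → Fin 16) (k : ℕ)
    (w : List Bool) (o : Fin W → Fin 16) : Prop :=
  ∃ v ∈ T, Placed W D v ∧ Fib B K ω k w v ∧ Hit B K ω k w v o

lemma length_of_placed (hW : 0 < W) (D : Finset (List Bool)) (w : List Bool) (k : ℕ)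
    (hk : w.length = k * W) (hD : ∀ w' ∈ D, w'.length ≤ k * W) (v : List Bool)
    (hv : Placed W (insert w D) v) : v.length ≤ (k + 1) * W := by
  by_contra hn
  push Not at hn
  have h1 := hv (k + 1) hn
  have h2 : (v.take ((k + 1) * W)).length = (k + 1) * W := by rw [List.length_take]; omega
  have h3 : k * W < (k + 1) * W := by rw [add_mul, one_mul]; omega
  rcases Finset.mem_insert.1 h1 with h | h
  · rw [h, hk] at h2; omega
  · have := hD _ h
    omega

lemma placed_cases (hW : 0 < W) (D : Finset (List Bool)) (w : List Bool) (k : ℕ)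
    (hk : w.length = k * W) (hD : ∀ w' ∈ D, w'.length ≤ k * W) (v : List Bool)
    (hv : Placed W (insert w D) v) :
    Placed W D v ∨ (k * W < v.length ∧ v.length ≤ (k + 1) * W ∧ v.take (k * W) = w) := by
  by_cases h : Placed W D v
  · exact Or.inl h
  · right
    unfold Placed at h
    push Not at h
    obtain ⟨t, ht, htD⟩ := h
    have h1 : v.take (t * W) = w := by
      rcases Finset.mem_insert.1 (hv t ht) with h | h
      · exact h
      · exact absurd h htD
    have h2 : t * W = k * W := by
      rw [← hk, ← h1, List.length_take]; omega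
    have h3 : t = k := Nat.eq_of_mul_eq_mul_right hW h2
    subst h3
    exact ⟨ht, length_of_placed hW D w t hk hD v hv, h1⟩

lemma P_update_old (D : Finset (List Bool)) (ω : List Bool → Fin W → Fin 16)
    (w : List Bool) (hw : w ∉ D) (o : Fin W → Fin 16) (v : List Bool) (hv : Placed W D v)
    (c : Co) : P B K (Function.update ω w o) v c = P B K ω v c := by
  apply P_congr
  intro t ht
  rw [Function.update_of_ne]
  intro h
  exact hw (h ▸ hv t ht)

lemma P_update_self (ω : List Bool → Fin W → Fin 16) (w : List Bool) (o : Fin W → Fin 16)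
    (c : Co) : P B K (Function.update ω w o) w c = P B K ω w c := by
  apply P_congr
  intro t ht
  rw [Function.update_of_ne]
  intro h
  have := congrArg List.length h
  rw [List.length_take] at this
  omega

/-- number of flips of group `(b, i)` up to length `l`, mod 2. -/
def grp (W B b i l : ℕ) : ZMod 2 := ∑ t ∈ Finset.range l, if t % W = i ∧ t / W % B = b then 1 else 0

lemma sum_group (ω : List Bool → Fin W → Fin 16) (v : List Bool) (b i : ℕ) (hi : i < K) :
    ∑ j ∈ Finset.range 16, P B K ω v (b, i, j) = grp W B b i v.length := by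
  unfold P grp
  rw [Finset.sum_comm]
  apply Finset.sum_congr rfl
  intro t _
  by_cases h : t % W = i ∧ t / W % B = b
  · rw [if_pos h]
    have hcd : cd B K ω v t = (b, i, (oval (ω (v.take (t / W * W))) (t % W) +
        (v.getD t false).toNat) % 16) := by
      unfold cd
      rw [co_pool _ _ (by rw [h.1]; exact hi), h.1, h.2]
    rw [Finset.sum_eq_single ((oval (ω (v.take (t / W * W))) (t % W) +
        (v.getD t false).toNat) % 16)]
    · rw [if_pos hcd]
    · intro j _ hj
      rw [if_neg]
      rw [hcd]
      intro h'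
      simp only [Prod.mk.injEq, true_and] at h'
      exact hj h'.symm
    · intro hn
      exfalso
      apply hn
      rw [Finset.mem_range]
      exact Nat.mod_lt _ (by norm_num)
  · rw [if_neg h]
    apply Finset.sum_eq_zero
    intro j _
    rw [if_neg]
    intro hcd
    apply h
    have h1 := cd_depth (B := B) (K := K) ω v t
    rw [hcd] at h1
    have h1 : t % W = i := h1.symm
    refine ⟨h1, ?_⟩
    unfold cd at hcd
    rw [co_pool _ _ (by rw [h1]; exact hi)] at hcd
    exact congrArg Prod.fst hcd

lemma grp_same (hW : 0 < W) (b k i l : ℕ) (h1 : k * W ≤ l) (h2 : l ≤ k * W + i) (hi : i < W) :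
    grp W B b i l = grp W B b i (k * W) := by
  unfold grp
  rw [← Finset.sum_range_add_sum_Ico _ h1]
  rw [Finset.sum_eq_zero (s := Finset.Ico (k * W) l), add_zero]
  intro t ht
  rw [Finset.mem_Ico] at ht
  rw [if_neg]
  rintro ⟨h, _⟩
  have h3 : t / W = k := by
    apply le_antisymm
    · have : t / W < k + 1 := (Nat.div_lt_iff_lt_mul hW).2 (by rw [add_mul, one_mul]; omega)
      omega
    · exact (Nat.le_div_iff_mul_le hW).2 ht.1
  have h4 := Nat.div_add_mod' t W
  rw [h3, h] at h4
  omega

lemma grp_succ (hW : 0 < W) (k i : ℕ) (hi : i < W) :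
    grp W B (k % B) i ((k + 1) * W) = grp W B (k % B) i (k * W) + 1 := by
  have h1 : grp W B (k % B) i (k * W + i) = grp W B (k % B) i (k * W) :=
    grp_same hW _ k i _ (by omega) le_rfl hi
  have h2 : grp W B (k % B) i (k * W + i + 1) = grp W B (k % B) i (k * W) + 1 := by
    rw [← h1]
    unfold grp
    rw [Finset.sum_range_succ]
    have := div_mul_add_mod hW k i hi
    rw [if_pos ⟨this.2, by rw [this.1]⟩]
  rw [← h2]
  unfold grp
  have h3 : k * W + i + 1 ≤ (k + 1) * W := by rw [add_mul, one_mul]; omega
  rw [← Finset.sum_range_add_sum_Ico _ h3]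
  rw [Finset.sum_eq_zero (s := Finset.Ico _ _), add_zero]
  intro t ht
  rw [Finset.mem_Ico] at ht
  rw [if_neg]
  rintro ⟨h, _⟩
  have h3 : t / W = k := by
    apply le_antisymm
    · have : t / W < k + 1 := (Nat.div_lt_iff_lt_mul hW).2 ht.2
      omega
    · exact (Nat.le_div_iff_mul_le hW).2 (by omega)
  have h4 := Nat.div_add_mod' t W
  rw [h3, h] at h4
  omega

lemma mod_succ_ne (hB : 2 ≤ B) (k : ℕ) : k % B ≠ (k + 1) % B := by
  intro h
  have : (k + 1 - k) % B = 0 := (Nat.modEq_iff_dvd' (Nat.le_succ k)).1 h |> Nat.mod_eq_zero_of_dvd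
  have h1 : k + 1 - k = 1 := by omega
  rw [h1, Nat.mod_eq_of_lt (by omega)] at this
  omega

/-- Evaluation of a new vertex outside block `k`. -/
lemma new_out (hW : 0 < W) (ω : List Bool → Fin W → Fin 16) (w : List Bool) (k : ℕ)
    (o : Fin W → Fin 16) (v : List Bool)
    (h1 : k * W < v.length) (h2 : v.length ≤ (k + 1) * W) (h3 : v.take (k * W) = w) (c : Co)
    (hc : c.1 < B) (hck : c.1 ≠ k % B) :
    P B K (Function.update ω w o) v c = P B K ω w c := by
  rw [P_out hW _ v k c h1.le h2 hc hck, h3, P_update_self]

/-- Evaluation of a new vertex inside the pool of block `k`. -/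
lemma new_in (hW : 0 < W) (hB : 0 < B) (hKW : K ≤ W) (ω : List Bool → Fin W → Fin 16)
    (w : List Bool) (k : ℕ)
    (o : Fin W → Fin 16) (v : List Bool)
    (h1 : k * W < v.length) (h2 : v.length ≤ (k + 1) * W) (h3 : v.take (k * W) = w) (i j : ℕ)
    (hi : i < K) :
    P B K (Function.update ω w o) v (k % B, i, j) = P B K ω w (k % B, i, j) +
      if k * W + i < v.length ∧ (oval o i + (v.getD (k * W + i) false).toNat) % 16 = j
      then 1 else 0 := by
  rw [P_in hW _ v k (k % B, i, j) hB h1.le h2 rfl (by show i < W; omega), h3, P_update_self]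
  have hdm := div_mul_add_mod hW k i (by omega)
  have hcd : cd B K (Function.update ω w o) v (k * W + i) = (k % B, i,
      (oval o i + (v.getD (k * W + i) false).toNat) % 16) := by
    unfold cd
    rw [co_pool _ _ (by rw [hdm.2]; exact hi), hdm.1, hdm.2, h3, Function.update_self]
  show _ + (if k * W + i < v.length ∧ cd B K (Function.update ω w o) v (k * W + i) = (k % B, i, j)
    then (1 : ZMod 2) else 0) = _
  rw [hcd]
  simp

/-- A good option preserves the invariant. -/
theorem step_inv (hW : 0 < W) (hB : 2 ≤ B) (hK : 0 < K) (hKW : K ≤ W) (T D : Finset (List Bool))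
    (ω : List Bool → Fin W → Fin 16) (w : List Bool) (k : ℕ)
    (hk : w.length = k * W) (hwD : w ∉ D) (hD : ∀ w' ∈ D, w'.length ≤ k * W)
    (hInv : Inv B K T D ω) (o : Fin W → Fin 16) (hgood : ¬ Conf B K T D ω k w o) :
    Inv B K T (insert w D) (Function.update ω w o) := by
  intro k' hBk u hu hul hup v hv hvl hvp hne
  have hle : k * W < (k + 1) * W := by rw [add_mul, one_mul]; omega
  have hmod := mod_succ_ne hB k
  have hmB := Nat.mod_lt k (show 0 < B by omega)
  rcases placed_cases hW D w k hk hD u hup with hu1 | ⟨hu1, hu2, hu3⟩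
  · rcases placed_cases hW D w k hk hD v hvp with hv1 | ⟨hv1, hv2, hv3⟩
    · -- both old
      obtain ⟨c, hc1, hc2, hc3⟩ := hInv k' hBk u hu hul hu1 v hv hvl hv1 hne
      refine ⟨c, hc1, hc2, ?_⟩
      rw [P_update_old D ω w hwD o u hu1, P_update_old D ω w hwD o v hv1]
      exact hc3
    · -- u old, v new
      have hk1 : k < k' := by
        by_contra hn
        have : k' * W ≤ k * W := Nat.mul_le_mul_right _ (by omega)
        omega
      have hk2 : k' ≤ k + 1 := by
        have := length_of_placed hW D w k hk hD u hup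
        rw [hul] at this
        exact Nat.le_of_mul_le_mul_right this hW
      have hkk : k' = k + 1 := by omega
      subst hkk
      by_contra hcon
      push Not at hcon
      have hin : ∀ c : Co, c.1 < B → c.1 ≠ (k + 1) % B → P B K ω u c =
          P B K (Function.update ω w o) v c := by
        intro c hc1 hc2
        rw [← hcon c hc1 hc2, P_update_old D ω w hwD o u hu1]
      by_cases hfull : k * W + K ≤ v.length
      · apply hgood
        refine ⟨u, hu, hu1, ?_, fun i => v.getD (k * W + i) false, ?_⟩
        · intro c hc1 hc2 hc3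
          rw [hin c hc1 hc3, new_out hW ω w k o v hv1 hv2 hv3 c hc1 hc2]
        · intro i hi j hj
          rw [hin (k % B, i, j) hmB hmod, new_in hW (by omega) hKW ω w k o v hv1 hv2 hv3 i j hi]
          have : k * W + i < v.length := by omega
          simp only [this, true_and]
      · push Not at hfull
        have e1 : ∑ j ∈ Finset.range 16, P B K ω u (k % B, K - 1, j) =
            ∑ j ∈ Finset.range 16, P B K (Function.update ω w o) v (k % B, K - 1, j) :=
          Finset.sum_congr rfl fun j _ => hin (k % B, K - 1, j) hmB hmod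
        rw [sum_group _ _ _ _ (by omega), sum_group _ _ _ _ (by omega), hul,
          grp_succ hW k (K - 1) (by omega),
          grp_same hW _ k (K - 1) v.length hv1.le (by omega) (by omega)] at e1
        have : (1 : ZMod 2) = 0 := by
          have := congrArg (fun z => z - grp W B (k % B) (K - 1) (k * W)) e1
          simpa using this
        exact one_ne_zero this
  · -- u new
    have hkk : k' = k + 1 := by
      rw [hul] at hu1 hu2
      have h1 : k < k' := Nat.lt_of_mul_lt_mul_right hu1
      have h2 : k' ≤ k + 1 := Nat.le_of_mul_le_mul_right hu2 hW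
      omega
    subst hkk
    rcases placed_cases hW D w k hk hD v hvp with hv1 | ⟨hv1, hv2, hv3⟩
    · -- v old
      by_contra hcon
      push Not at hcon
      have hin : ∀ c : Co, c.1 < B → c.1 ≠ (k + 1) % B → P B K ω v c =
          P B K (Function.update ω w o) u c := by
        intro c hc1 hc2
        rw [hcon c hc1 hc2, P_update_old D ω w hwD o v hv1]
      apply hgood
      refine ⟨v, hv, hv1, ?_, fun i => u.getD (k * W + i) false, ?_⟩
      · intro c hc1 hc2 hc3
        rw [hin c hc1 hc3, new_out hW ω w k o u hu1 hu2 hu3 c hc1 hc2]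
      · intro i hi j hj
        rw [hin (k % B, i, j) hmB hmod, new_in hW (by omega) hKW ω w k o u hu1 hu2 hu3 i j hi]
        have : k * W + i < u.length := by rw [hul, add_mul, one_mul]; omega
        simp only [this, true_and]
    · -- both new : not far
      exfalso
      apply hne
      have hle2 : (k + 1 + 1 - B) * W ≤ k * W := Nat.mul_le_mul_right _ (by omega)
      have h1 := congrArg (List.take ((k + 1 + 1 - B) * W)) hu3
      have h2 := congrArg (List.take ((k + 1 + 1 - B) * W)) hv3
      rw [List.take_take, min_eq_left hle2] at h1 h2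
      rw [h1, h2]

end Pool.Agent.Work.MP_bf01b2_co
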