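import Pool.Agent.Work.MP_bf01b2_co.Lg.Main
import Pool.Agent.Work.MP_bf01b2_co.Lg.Assemble
import Pool.Agent.Work.MP_bf01b2_co.Lg.SP
import Pool.Agent.Work.MP_bf01b2_co.Lg.EX
import Pool.Agent.Work.MP_bf01b2_co.Lg.ST
import Pool.Agent.Work.MP_bf01b2_co.Lg.FI
import Pool.Agent.Work.MP_bf01b2_co.Lg.HC
import Pool.Agent.Work.MP_bf01b2_co.Lg.VC
import Pool.Agent.Work.MP_bf01b2_co.Lg.CC
import Pool.Agent.Work.MP_bf01b2_co.Lg.MC
import Pool.Agent.Work.MP_bf01b2_co.Lg.OC
import Pool.Agent.Work.MP_bf01b2_co.Lg.PS
import Pool.Agent.Work.MP_bf01b2_co.Lg.PL
import Pool.Agent.Work.MP_bf01b2_co.Lg.PA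
import Pool.Agent.Work.MP_bf01b2_co.Lg.PI
import Pool.Agent.Work.MP_bf01b2_co.Lg.NU
import Pool.Agent.Work.MP_bf01b2_co.Tree

/-!
# Binary trees are subgraphs of the hypercube of dimension `n + O(log n)`

Every tree of maximum degree at most `3` with at most `2 ^ n` vertices is a subgraph of `Q_m` for
every `m ≥ n + C log n`, with an absolute constant `C`.  (The conjecture of Bhatt et al. asks for
`m = n + 1`.)

Idea of the proof.  The tree is a prefix closed set of bit strings, its levels are cut into slabs
of height `5 s` with `s = O(log n)`.  The slab `k` uses the window `k mod B` of `5 s` real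
coordinates, shared trash coordinates and the PSI group `k mod 2`.  The first `3 s` levels of a
slab are embedded injectively in the window (three levels in five coordinates, then a random
permutation of the window and a random number of real flips), so that the new content of the window
is uniform on almost all of `{0,1}^{5 s}`; the last `2 s` levels re-randomise the PSI group.  The
options of the pieces are chosen one after the other.  A potential function, which counts all
`r`-tuples of boundary vertices, shows that only polynomially many (in `n`) boundary vertices ever
have the same real coordinates; the PSI groups are used to avoid the remaining collisions, and two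
invariants (one of them protects the vertices at the end of a piece against the shallow vertices
of pieces that are processed later) make two recycled groups sufficient.
-/

set_option autoImplicit false

namespace Pool.Agent.Results.MP_bf01b2_co.LogarithmicExcess

open Pool.Agent.Work.MP_bf01b2_co Pool.Agent.Work.MP_bf01b2_co.Lg

/-- Every tree of maximum degree at most `3` on at most `2 ^ n` vertices is isomorphic to a
subgraph of the hypercube of dimension `m`, for every `m ≥ n + C log n`. -/
theorem result :
    ∃ C : ℝ, ∀ n : ℕ, 2 ≤ n →
      ∀ (V : Type) [Fintype V] [DecidableEq V] (G : SimpleGraph V) [DecidableRel G.Adj],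
        G.IsTree → (∀ v : V, G.degree v ≤ 3) → Fintype.card V ≤ 2 ^ n →
          ∀ m : ℕ, (n : ℝ) + C * Real.log n ≤ m →
            ∃ f : G →g SimpleGraph.fromRel (fun x y : Fin m → Bool => hammingDist x y = 1),
              Function.Injective f :=
  Lg.assemble
    (core (stepInv exitPsi) (finalInj samePiece) (confCount hitCount oldCount) optCard
      (phiStep matchCount) phiLoad (phiInit addOne))
    treeStr Lg.params

end Pool.Agent.Results.MP_bf01b2_co.LogarithmicExcess
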