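import Pool.Agent.Work.MP_bf01b2_co.Pot

/-!
# MP_bf01b2_co : the combinatorial core
-/

set_option autoImplicit false

namespace Pool.Agent.Work.MP_bf01b2_co

variable {W B K : ℕ}

lemma card_used (hW : 0 < W) (hB : 2 ≤ B) (v : List Bool) (hv : (B - 2) * W < v.length) :
    (used W B v).card = B - 2 := by
  have := slab_ge hW v hv
  unfold used
  rw [Nat.card_Ico]
  omega

lemma card_residue_le (v : List Bool) (r : ℕ) :
    ((used W B v).filter fun t => t % B = r).card ≤ 1 := by
  rw [Finset.card_le_one]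
  intro a ha b hb
  rw [Finset.mem_filter] at ha hb
  obtain ⟨ha1, ha2⟩ := ha
  obtain ⟨hb1, hb2⟩ := hb
  unfold used at ha1 hb1
  rw [Finset.mem_Ico] at ha1 hb1
  rcases lt_trichotomy a b with h | h | h
  · exact absurd (ha2.trans hb2.symm) (mod_ne_of_lt a b h (by omega))
  · exact h
  · exact absurd (hb2.trans ha2.symm) (mod_ne_of_lt b a h (by omega))

lemma card_R (hW : 0 < W) (hB : 2 ≤ B) (q : ℕ) (v : List Bool) (hv : (B - 2) * W < v.length) :
    B - 4 ≤ (R W B q v).card := by
  classical
  have h1 := card_used hW hB v hv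
  have h2 := card_residue_le (W := W) (B := B) v q
  have h3 := card_residue_le (W := W) (B := B) v ((q + 1) % B)
  have hsub : used W B v ⊆ (R W B q v) ∪ (((used W B v).filter fun t => t % B = q) ∪
      ((used W B v).filter fun t => t % B = (q + 1) % B)) := by
    intro t ht
    by_cases ha : t % B = q
    · exact Finset.mem_union_right _ (Finset.mem_union_left _ (Finset.mem_filter.2 ⟨ht, ha⟩))
    · by_cases hb : t % B = (q + 1) % B
      · exact Finset.mem_union_right _ (Finset.mem_union_right _ (Finset.mem_filter.2 ⟨ht, hb⟩))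
      · apply Finset.mem_union_left
        unfold R
        exact Finset.mem_filter.2 ⟨ht, ha, hb⟩
  have h4 := Finset.card_le_card hsub
  have h5 := Finset.card_union_le (R W B q v) (((used W B v).filter fun t => t % B = q) ∪
      ((used W B v).filter fun t => t % B = (q + 1) % B))
  have h6 := Finset.card_union_le ((used W B v).filter fun t => t % B = q)
      ((used W B v).filter fun t => t % B = (q + 1) % B)
  omega

lemma card_coarse (hKW : K ≤ W) : (coarse W B K).card ≤ B * (W + 15 * K) := by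
  unfold coarse
  refine (Finset.card_union_le _ _).trans ?_
  rw [Finset.card_product, Finset.card_product, Finset.card_product, Finset.card_product]
  simp only [Finset.card_range, Nat.card_Ico, Finset.card_singleton, mul_one]
  rw [← mul_add]
  apply Nat.mul_le_mul_left
  omega

lemma term_init (hW : 0 < W) (hB : 2 ≤ B) {θ : ℝ} (hθ : 0 ≤ θ) (hθ1 : θ ≤ 1)
    (ω : List Bool → Fin W → Fin 16) {L : ℕ} (q : ℕ) (x : Finset Co) (V : Fin L → List Bool)
    (hV : Adm W B V) : term B K θ ∅ ω q x V ≤ θ ^ ((B - 4) * L) := by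
  unfold term
  have h1 : ∏ p ∈ idx W B q V, fac B K θ ∅ ω x (V p.1) p.2 = θ ^ (idx W B q V).card := by
    rw [← Finset.prod_const]
    apply Finset.prod_congr rfl
    intro p _
    unfold fac
    rw [if_neg (Finset.notMem_empty _)]
  rw [h1]
  apply pow_le_pow_of_le_one hθ hθ1
  unfold idx
  rw [Finset.card_sigma]
  calc (B - 4) * L = ∑ _i : Fin L, (B - 4) := by simp [mul_comm]
    _ ≤ _ := Finset.sum_le_sum fun i _ => card_R hW hB q (V i) (hV.1 i)

lemma phi_init (hW : 0 < W) (hB : 8 ≤ B) (hK : 0 < K) (hKW : K ≤ W) (n L : ℕ)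
    (hn : n ≤ (B - 4) * W) (hL : 2 * (W + 15 * K) + 2 ≤ L) (T : Finset (List Bool))
    (hT : T.card ≤ 2 ^ n) (ω : List Bool → Fin W → Fin 16) :
    Phi B K L ((1 / 2 : ℝ) ^ (W + 3 * K - 1)) T ∅ ω < 1 := by
  classical
  set θ : ℝ := (1 / 2 : ℝ) ^ (W + 3 * K - 1) with hθ
  have hθ0 : 0 ≤ θ := by positivity
  have hθ1 : θ ≤ 1 := pow_le_one₀ (by norm_num) (by norm_num)
  have hTup : (Tup W B L T).card ≤ (2 ^ n) ^ L := by
    unfold Tup
    refine (Finset.card_filter_le _ _).trans ?_
    rw [Fintype.card_piFinset]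
    simp only [Finset.prod_const, Finset.card_univ, Fintype.card_fin]
    exact Nat.pow_le_pow_left hT L
  have hx : ((coarse W B K).powerset).card ≤ 2 ^ (B * (W + 15 * K)) := by
    rw [Finset.card_powerset]
    exact Nat.pow_le_pow_right (by norm_num) (card_coarse hKW)
  have hsum : Phi B K L θ T ∅ ω ≤
      (B : ℝ) * ((2 ^ (B * (W + 15 * K)) : ℕ) : ℝ) * (((2 ^ n) ^ L : ℕ) : ℝ) * θ ^ ((B - 4) * L) := by
    unfold Phi
    calc ∑ q ∈ Finset.range B, ∑ x ∈ (coarse W B K).powerset, ∑ V ∈ Tup W B L T,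
          term B K θ ∅ ω q x V
        ≤ ∑ q ∈ Finset.range B, ∑ x ∈ (coarse W B K).powerset, ∑ V ∈ Tup W B L T,
          θ ^ ((B - 4) * L) := by
          apply Finset.sum_le_sum; intro q _
          apply Finset.sum_le_sum; intro x _
          apply Finset.sum_le_sum; intro V hV
          exact term_init hW (by omega) hθ0 hθ1 ω q x V (Finset.mem_filter.1 hV).2
      _ = (B : ℝ) * (((coarse W B K).powerset.card : ℕ) : ℝ) * (((Tup W B L T).card : ℕ) : ℝ) *
          θ ^ ((B - 4) * L) := by
          simp only [Finset.sum_const, Finset.card_range, nsmul_eq_mul]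
          ring
      _ ≤ _ := by
          apply mul_le_mul_of_nonneg_right _ (by positivity)
          apply mul_le_mul
          · apply mul_le_mul_of_nonneg_left _ (by positivity)
            exact_mod_cast hx
          · exact_mod_cast hTup
          · positivity
          · positivity
  refine lt_of_le_of_lt hsum ?_
  -- numeric part
  have hBB : (B : ℝ) < 2 ^ B := by exact_mod_cast Nat.lt_two_pow_self
  have hexp : B + B * (W + 15 * K) + n * L ≤ (W + 3 * K - 1) * ((B - 4) * L) := by
    have e1 : n * L ≤ W * ((B - 4) * L) := by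
      calc n * L ≤ ((B - 4) * W) * L := Nat.mul_le_mul_right _ hn
        _ = W * ((B - 4) * L) := by ring
    have e2 : W + 3 * K - 1 = W + (3 * K - 1) := by omega
    have e3 : B + B * (W + 15 * K) ≤ (3 * K - 1) * ((B - 4) * L) := by
      calc B + B * (W + 15 * K) ≤ B * (2 * (W + 15 * K) + 2) := by nlinarith
        _ ≤ B * L := Nat.mul_le_mul_left _ hL
        _ ≤ (2 * (B - 4)) * L := Nat.mul_le_mul_right _ (by omega)
        _ = 2 * ((B - 4) * L) := by ring
        _ ≤ _ := Nat.mul_le_mul_right _ (by omega)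
    rw [e2, add_mul]
    omega
  have hθp : θ ^ ((B - 4) * L) = (1 / 2 : ℝ) ^ ((W + 3 * K - 1) * ((B - 4) * L)) := by
    rw [hθ, ← pow_mul]
  rw [hθp]
  have hle : (1 / 2 : ℝ) ^ ((W + 3 * K - 1) * ((B - 4) * L)) ≤
      (1 / 2 : ℝ) ^ (B + B * (W + 15 * K) + n * L) :=
    pow_le_pow_of_le_one (by norm_num) (by norm_num) hexp
  have hpos : (0 : ℝ) < (1 / 2 : ℝ) ^ (B + B * (W + 15 * K) + n * L) := by positivity
  calc (B : ℝ) * ((2 ^ (B * (W + 15 * K)) : ℕ) : ℝ) * (((2 ^ n) ^ L : ℕ) : ℝ) *
        (1 / 2 : ℝ) ^ ((W + 3 * K - 1) * ((B - 4) * L))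
      ≤ (B : ℝ) * ((2 ^ (B * (W + 15 * K)) : ℕ) : ℝ) * (((2 ^ n) ^ L : ℕ) : ℝ) *
        (1 / 2 : ℝ) ^ (B + B * (W + 15 * K) + n * L) := by
        apply mul_le_mul_of_nonneg_left hle (by positivity)
    _ < (2 : ℝ) ^ B * ((2 ^ (B * (W + 15 * K)) : ℕ) : ℝ) * (((2 ^ n) ^ L : ℕ) : ℝ) *
        (1 / 2 : ℝ) ^ (B + B * (W + 15 * K) + n * L) := by
        apply mul_lt_mul_of_pos_right _ hpos
        apply mul_lt_mul_of_pos_right _ (by positivity)
        apply mul_lt_mul_of_pos_right hBB (by positivity)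
    _ = 1 := by
        push_cast
        rw [← pow_mul, ← pow_add, ← pow_add, one_div, inv_pow]
        exact mul_inv_cancel₀ (by positivity)

/-- The induction. -/
lemma exists_state (hW : 0 < W) (hB : 8 ≤ B) (hK : 0 < K) (hKW : K ≤ W) (n L : ℕ)
    (hn : n ≤ (B - 4) * W) (hLB : 2 * L * B ≤ 2 ^ K) (hL : 2 * (W + 15 * K) + 2 ≤ L)
    (T : Finset (List Bool))
    (hT : T.card ≤ 2 ^ n) :
    ∀ m ≤ (T.filter fun v => v.length % W = 0).card,
      ∃ D ⊆ T.filter (fun v => v.length % W = 0), D.card = m ∧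
        (∀ w ∈ D, ∀ w' ∈ T.filter (fun v => v.length % W = 0), w'.length < w.length → w' ∈ D) ∧
        ∃ ω : List Bool → Fin W → Fin 16, Inv B K T D ω ∧
          Phi B K L ((1 / 2 : ℝ) ^ (W + 3 * K - 1)) T D ω < 1 := by
  classical
  set Bd := T.filter (fun v => v.length % W = 0) with hBd
  set θ : ℝ := (1 / 2 : ℝ) ^ (W + 3 * K - 1) with hθ
  intro m
  induction m with
  | zero =>
    intro _
    refine ⟨∅, Finset.empty_subset _, rfl, fun w hw => absurd hw (Finset.notMem_empty _),
      fun _ _ => 0, ?_, phi_init hW hB hK hKW n L hn hL T hT _⟩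
    intro k hBk u hu hul hup
    exfalso
    have := hup 0 (by rw [zero_mul, hul]; exact Nat.mul_pos (by omega) hW)
    exact absurd this (Finset.notMem_empty _)
  | succ m ih =>
    intro hm
    obtain ⟨D, hDsub, hDcard, hDcl, ω, hInv, hPhi⟩ := ih (by omega)
    have hne : (Bd \ D).Nonempty := by
      rw [← Finset.card_pos, Finset.card_sdiff_of_subset hDsub]
      omega
    obtain ⟨w, hw, hwmin⟩ := Finset.exists_min_image (Bd \ D) List.length hne
    rw [Finset.mem_sdiff] at hw
    obtain ⟨hwBd, hwD⟩ := hw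
    have hwBd' := hwBd
    rw [hBd, Finset.mem_filter] at hwBd'
    obtain ⟨k, hk⟩ : ∃ k, w.length = k * W := by
      obtain ⟨k, hk⟩ := Nat.dvd_of_mod_eq_zero hwBd'.2
      exact ⟨k, by rw [hk, mul_comm]⟩
    have hD : ∀ w' ∈ D, w'.length ≤ k * W := by
      intro w' hw'
      by_contra hn'
      push Not at hn'
      exact hwD (hDcl w' hw' w hwBd (by rw [hk]; exact hn'))
    set S := Finset.univ.filter fun o : Fin W → Fin 16 => Conf B K T D ω k w o with hS
    set G := Finset.univ.filter fun o : Fin W → Fin 16 => ¬ Conf B K T D ω k w o with hG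
    have hScard : 2 * S.card ≤ 16 ^ W := by
      apply conf_card hW (by omega) hKW T D ω w k L hLB
      · intro F hFT hF hFd
        exact fam_of_phi hW (by omega) hKW (by positivity) L T D ω w k hPhi F hFT hF hFd
      · intro o ho
        exact (Finset.mem_filter.1 ho).2
    have hsum : S.card + G.card = 16 ^ W := by
      rw [hS, hG, Finset.card_filter_add_card_filter_not]
      simp
    have hGcard : 16 ^ W ≤ 2 * G.card := by omega
    have hG0 : G.Nonempty := by
      rw [← Finset.card_pos]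
      have : 0 < 16 ^ W := by positivity
      omega
    have hG8 : (8 : ℝ) ^ (W - K) ≤ θ * G.card := by
      have h1 : ((16 : ℝ) ^ W) ≤ 2 * (G.card : ℝ) := by exact_mod_cast hGcard
      have h2 : (8 : ℝ) ^ (W - K) * 2 = θ * 16 ^ W := by
        rw [hθ, one_div, inv_pow]
        rw [eq_comm, inv_mul_eq_iff_eq_mul₀ (by positivity)]
        have e8 : (8 : ℝ) = 2 ^ 3 := by norm_num
        have e16 : (16 : ℝ) = 2 ^ 4 := by norm_num
        rw [e8, e16, ← pow_mul, ← pow_mul, ← pow_succ, ← pow_add]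
        congr 1
        omega
      have hθ0 : 0 ≤ θ := by positivity
      have h3 := mul_le_mul_of_nonneg_left h1 hθ0
      linarith
    obtain ⟨o, hoG, hoPhi⟩ := phi_step (B := B) (K := K) hW (by omega) hKW (by positivity : 0 ≤ θ) L T D ω w k
      hk hwD hD G hG0 hG8
    refine ⟨insert w D, Finset.insert_subset hwBd hDsub, ?_, ?_, Function.update ω w o, ?_, ?_⟩
    · rw [Finset.card_insert_of_notMem hwD, hDcard]
    · intro a ha b hb hab
      rcases Finset.mem_insert.1 ha with ha | ha
      · by_cases hbD : b ∈ D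
        · exact Finset.mem_insert_of_mem hbD
        · have := hwmin b (Finset.mem_sdiff.2 ⟨hb, hbD⟩)
          rw [ha] at hab
          omega
      · exact Finset.mem_insert_of_mem (hDcl a ha b hb hab)
    · exact step_inv hW (by omega) hK hKW T D ω w k hk hwD hD hInv o (Finset.mem_filter.1 hoG).2
    · exact lt_of_le_of_lt hoPhi hPhi

theorem core : Core := by
  intro W B K L n hK hKW hB hn hLB hL T hTc hT
  have hW : 0 < W := by omega
  have hst := exists_state hW hB hK hKW n L hn hLB hL T hT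
    (T.filter fun v => v.length % W = 0).card (le_refl _)
  obtain ⟨D, hDsub, hDcard, _, ω, hInv, _⟩ := hst
  have hD : D = T.filter (fun v => v.length % W = 0) :=
    Finset.eq_of_subset_of_card_le hDsub hDcard.ge
  refine ⟨ω, ?_⟩
  apply inj_of_inv hW (by omega) hK T D ω hTc _ hInv
  intro v hv t ht
  rw [hD, Finset.mem_filter]
  refine ⟨hTc v hv _, ?_⟩
  rw [List.length_take, min_eq_left ht.le, Nat.mul_mod_left]

end Pool.Agent.Work.MP_bf01b2_co
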