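import Pool.Agent.Work.MP_bf01b2_co.Basic

/-!
# MP_bf01b2_co : near pairs are separated; the invariant gives injectivity
-/

set_option autoImplicit false

namespace Pool.Agent.Work.MP_bf01b2_co

variable {W B K : ℕ}

lemma P_ne_coarse (hW : 0 < W) (hB : 0 < B) (ω : List Bool → Fin W → Fin 16)
    (v : List Bool) (c : Co) (h : P B K ω v c ≠ 0) : c ∈ allCo W B K := by
  unfold P at h
  obtain ⟨t, _, ht⟩ := Finset.exists_ne_zero_of_sum_ne_zero h
  have ht : cd B K ω v t = c := by
    by_contra hn
    rw [if_neg hn] at ht
    exact ht rfl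
  rw [← ht]
  unfold cd co allCo coarse
  have h1 := Nat.mod_lt t hW
  have h2 := Nat.mod_lt (t / W) hB
  simp only [Finset.mem_union, Finset.mem_product, Finset.mem_range, Finset.mem_Ico,
    Finset.mem_singleton]
  split_ifs with h3 h4
  · left; left
    exact ⟨h2, h3, Nat.mod_lt _ (by norm_num)⟩
  · left; right
    exact ⟨h2, ⟨not_lt.1 h3, h1⟩, rfl⟩
  · right
    exact ⟨rfl, ⟨not_lt.1 h3, h1⟩, rfl⟩

lemma toNat_ne {x y : Bool} (h : x ≠ y) : (x.toNat = 0 ∧ y.toNat = 1) ∨ (x.toNat = 1 ∧ y.toNat = 0) := by
  cases x <;> cases y <;> simp_all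

lemma branch (hW : 0 < W) (hB : 0 < B) (ω : List Bool → Fin W → Fin 16)
    (u v : List Bool) (s : ℕ) (hu : s < u.length) (hv : s < v.length)
    (hs : u.take s = v.take s) (hne : u.getD s false ≠ v.getD s false)
    (hu2 : u.length ≤ (s / W + B) * W) (hv2 : v.length ≤ (s / W + B) * W) :
    ∃ c : Co, c.1 = s / W % B ∧ P B K ω u c ≠ P B K ω v c := by
  have hsW : s / W * W ≤ s := Nat.div_mul_le_self s W
  have hs1 : s / W * W + s % W = s := Nat.div_add_mod' s W
  have hmod := Nat.mod_lt s hW
  have hmB := Nat.mod_lt (s / W) hB
  have htk : u.take (s / W * W) = v.take (s / W * W) := by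
    have := congrArg (List.take (s / W * W)) hs
    rwa [List.take_take, List.take_take, min_eq_left hsW] at this
  have hval : ∀ c : Co, c.1 = s / W % B → c.2.1 = s % W →
      P B K ω u c = P B K ω (v.take (s / W * W)) c + (if cd B K ω u s = c then 1 else 0) ∧
      P B K ω v c = P B K ω (v.take (s / W * W)) c + (if cd B K ω v s = c then 1 else 0) := by
    intro c hc1 hc2
    constructor
    · rw [P_span hW ω u (s / W) (s / W) c (by omega) hu2 (by omega) (by omega) le_rfl (by omega)
        hc1.symm, htk, hc2, hs1]
      simp [hu]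
    · rw [P_span hW ω v (s / W) (s / W) c (by omega) hv2 (by omega) (by omega) le_rfl (by omega)
        hc1.symm, hc2, hs1]
      simp [hv]
  -- values
  set x := oval (ω (v.take (s / W * W))) (s % W) with hx
  have hcu : cd B K ω u s = co W B K s (x + (u.getD s false).toNat) := by
    unfold cd; rw [htk]
  have hcv : cd B K ω v s = co W B K s (x + (v.getD s false).toNat) := by
    unfold cd; rfl
  by_cases hK : s % W < K
  · refine ⟨cd B K ω u s, ?_, ?_⟩
    · rw [hcu, co_pool _ _ hK]
    · have h1 : (cd B K ω u s).1 = s / W % B := by rw [hcu, co_pool _ _ hK]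
      have h2 := hval _ h1 (cd_depth ω u s)
      rw [h2.1, h2.2, if_pos rfl, if_neg]
      · simp
      · rw [hcu, hcv, co_pool _ _ hK, co_pool _ _ hK]
        intro h
        simp only [Prod.mk.injEq, true_and] at h
        rcases toNat_ne hne with ⟨a, b⟩ | ⟨a, b⟩ <;> rw [a, b] at h <;> omega
  · refine ⟨(s / W % B, s % W, 0), rfl, ?_⟩
    have h2 := hval (s / W % B, s % W, 0) rfl rfl
    rw [h2.1, h2.2]
    have hB' : ((B, s % W, 0) : Co) ≠ (s / W % B, s % W, 0) := by
      intro h
      simp only [Prod.mk.injEq] at h
      omega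
    have hco : ∀ z, (co W B K s z = (s / W % B, s % W, 0)) ↔ z % 2 = 1 := by
      intro z
      unfold co
      rw [if_neg hK]
      split_ifs with h
      · simp [h]
      · simp only [h, iff_false]
        exact hB'
    simp only [hcu, hcv, hco]
    rcases toNat_ne hne with ⟨a, b⟩ | ⟨a, b⟩ <;> rw [a, b]
    · rcases Nat.mod_two_eq_zero_or_one x with h | h
      · have e1 : ¬ (x + 0) % 2 = 1 := by omega
        have e2 : (x + 1) % 2 = 1 := by omega
        rw [if_neg e1, if_pos e2]; simp
      · have e1 : (x + 0) % 2 = 1 := by omega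
        have e2 : ¬ (x + 1) % 2 = 1 := by omega
        rw [if_pos e1, if_neg e2]; simp
    · rcases Nat.mod_two_eq_zero_or_one x with h | h
      · have e1 : ¬ (x + 0) % 2 = 1 := by omega
        have e2 : (x + 1) % 2 = 1 := by omega
        rw [if_neg e1, if_pos e2]; simp
      · have e1 : (x + 0) % 2 = 1 := by omega
        have e2 : ¬ (x + 1) % 2 = 1 := by omega
        rw [if_pos e1, if_neg e2]; simp

lemma prefixNe (hW : 0 < W) (hB : 1 < B) (hK : 0 < K) (ω : List Bool → Fin W → Fin 16)
    (u : List Bool) (s : ℕ) (hu : s < u.length) (hu2 : u.length ≤ (s / W + B) * W) :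
    ∃ c : Co, P B K ω u c ≠ P B K ω (u.take s) c := by
  have hsW : s / W * W ≤ s := Nat.div_mul_le_self s W
  have hs1 : s / W * W + s % W = s := Nat.div_add_mod' s W
  have hmod := Nat.mod_lt s hW
  have hmB := Nat.mod_lt (s / W) (show 0 < B by omega)
  have hlen : (u.take s).length = s := by rw [List.length_take]; omega
  have htk : (u.take s).take (s / W * W) = u.take (s / W * W) := by
    rw [List.take_take, min_eq_left hsW]
  by_cases hc : (cd B K ω u s).1 < B
  · -- coarse
    refine ⟨cd B K ω u s, ?_⟩
    have h1 := cd_fst ω u s hc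
    have h2 := cd_depth (B := B) (K := K) ω u s
    rw [P_span hW ω u (s / W) (s / W) _ (by omega) hu2 hc (by omega) le_rfl (by omega) h1.symm]
    rw [P_span hW ω (u.take s) (s / W) (s / W) _ (by omega) (by omega) hc (by omega) le_rfl
      (by omega) h1.symm, htk, h2, hs1, hlen]
    simp [hu]
  · -- fine
    by_cases hl : u.length ≤ (s / W + 1) * W
    · refine ⟨cd B K ω u s, ?_⟩
      rw [P_take hW ω u s hu.le]
      rw [Finset.sum_eq_single s]
      · simp
      · intro t ht hne
        rw [Finset.mem_Ico] at ht
        rw [if_neg]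
        intro h
        have h1 := cd_depth (B := B) (K := K) ω u t
        rw [h, cd_depth ω u s] at h1
        -- t % W = s % W, s < t < (s/W+1) W
        have h3 : t / W = s / W := by
          apply le_antisymm
          · have : t / W < s / W + 1 := (Nat.div_lt_iff_lt_mul hW).2 (lt_of_lt_of_le ht.2 hl)
            omega
          · exact Nat.div_le_div_right ht.1
        have h4 := Nat.div_add_mod' t W
        rw [h3, ← h1, hs1] at h4
        exact hne h4.symm
      · intro h
        exfalso
        exact h (Finset.mem_Ico.2 ⟨le_rfl, hu⟩)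
    · -- next slab starts with a pool flip
      push Not at hl
      set t := (s / W + 1) * W with ht
      have hst : s < t := by
        have := Nat.lt_div_mul_add (a := s) hW
        rw [ht, add_mul, one_mul]
        exact this
      have ht1 : t % W = 0 := Nat.mul_mod_left _ _
      have ht2 : t / W = s / W + 1 := Nat.mul_div_cancel _ hW
      have hpool : cd B K ω u t = ((s / W + 1) % B, 0, (oval (ω (u.take (t / W * W))) 0 +
          (u.getD t false).toNat) % 16) := by
        unfold cd
        rw [co_pool _ _ (by rw [ht1]; exact hK), ht2, ht1]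
      refine ⟨cd B K ω u t, ?_⟩
      have h0 : (cd B K ω u t).1 = (s / W + 1) % B := by rw [hpool]
      have h00 : (cd B K ω u t).2.1 = 0 := by rw [hpool]
      have hc' : (cd B K ω u t).1 < B := by rw [h0]; exact Nat.mod_lt _ (by omega)
      rw [P_span hW ω u (s / W) (s / W + 1) _ (by omega) hu2 hc' (by omega) (by omega) (by omega)
        h0.symm]
      rw [P_span hW ω (u.take s) (s / W) (s / W + 1) _ (by omega) (by omega) hc' (by omega)
        (by omega) (by omega) h0.symm, htk, h00, hlen, add_zero, ← ht]
      rw [if_pos ⟨hl, rfl⟩, if_neg (by omega)]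
      simp

/-- The invariant with everything placed gives injectivity. -/
theorem inj_of_inv (hW : 0 < W) (hB : 1 < B) (hK : 0 < K) (T D : Finset (List Bool))
    (ω : List Bool → Fin W → Fin 16) (hT : PrefClosed T) (hpl : ∀ v ∈ T, Placed W D v)
    (hInv : Inv B K T D ω) :
    ∀ u ∈ T, ∀ v ∈ T, (∀ c ∈ allCo W B K, P B K ω u c = P B K ω v c) → u = v := by
  -- reduce to |v| ≤ |u| and existence of a differing coordinate
  suffices H : ∀ u ∈ T, ∀ v ∈ T, v.length ≤ u.length → u ≠ v →
      ∃ c : Co, P B K ω u c ≠ P B K ω v c by
    intro u hu v hv h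
    by_contra hne
    have : ∃ c : Co, P B K ω u c ≠ P B K ω v c := by
      rcases le_total v.length u.length with hl | hl
      · exact H u hu v hv hl hne
      · obtain ⟨c, hc⟩ := H v hv u hu hl (Ne.symm hne)
        exact ⟨c, hc.symm⟩
    obtain ⟨c, hc⟩ := this
    apply hc
    by_cases hcm : c ∈ allCo W B K
    · exact h c hcm
    · have h1 : P B K ω u c = 0 := by
        by_contra h0
        exact hcm (P_ne_coarse hW (by omega) ω u c h0)
      have h2 : P B K ω v c = 0 := by
        by_contra h0
        exact hcm (P_ne_coarse hW (by omega) ω v c h0)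
      rw [h1, h2]
  intro u hu v hv hl hne
  have hupos : 0 < u.length := by
    rcases Nat.eq_zero_or_pos u.length with h0 | h0
    · exfalso
      apply hne
      have h1 : v.length = 0 := by omega
      rw [List.length_eq_zero_iff.1 h0, List.length_eq_zero_iff.1 h1]
    · exact h0
  obtain ⟨k, hk1, hk2⟩ : ∃ k, k * W < u.length ∧ u.length ≤ (k + 1) * W := by
    refine ⟨(u.length - 1) / W, ?_, ?_⟩
    · have := Nat.div_mul_le_self (u.length - 1) W
      omega
    · have := Nat.lt_div_mul_add (a := u.length - 1) hW
      rw [add_mul, one_mul]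
      omega
  by_cases hfar : B ≤ k ∧ u.take ((k + 1 - B) * W) ≠ v.take ((k + 1 - B) * W)
  · -- far case
    obtain ⟨hBk, hfar⟩ := hfar
    have hle : (k + 1 - B) * W ≤ k * W := Nat.mul_le_mul_right _ (by omega)
    have hu' : (u.take (k * W)).length = k * W := by rw [List.length_take]; omega
    have hut : (u.take (k * W)).take ((k + 1 - B) * W) = u.take ((k + 1 - B) * W) := by
      rw [List.take_take, min_eq_left hle]
    have hplu : Placed W D (u.take (k * W)) := by
      intro t ht
      rw [List.take_take]
      rw [hu'] at ht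
      rw [min_eq_left ht.le]
      exact hpl u hu t (by omega)
    by_cases hvk : v.length ≤ k * W
    · obtain ⟨c, hc1, hc2, hc3⟩ := hInv k hBk (u.take (k * W)) (hT u hu _) hu' hplu v hv hvk
        (hpl v hv) (by rw [hut]; exact hfar)
      refine ⟨c, ?_⟩
      rw [P_out hW ω u k c hk1.le hk2 hc1 hc2]
      exact hc3
    · push Not at hvk
      have hv' : (v.take (k * W)).length = k * W := by rw [List.length_take]; omega
      have hvt : (v.take (k * W)).take ((k + 1 - B) * W) = v.take ((k + 1 - B) * W) := by
        rw [List.take_take, min_eq_left hle]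
      have hplv : Placed W D (v.take (k * W)) := by
        intro t ht
        rw [List.take_take]
        rw [hv'] at ht
        rw [min_eq_left ht.le]
        exact hpl v hv t (by omega)
      obtain ⟨c, hc1, hc2, hc3⟩ := hInv k hBk (u.take (k * W)) (hT u hu _) hu' hplu
        (v.take (k * W)) (hT v hv _) hv'.le hplv (by rw [hut, hvt]; exact hfar)
      refine ⟨c, ?_⟩
      rw [P_out hW ω u k c hk1.le hk2 hc1 hc2, P_out hW ω v k c hvk.le (by omega) hc1 hc2]
      exact hc3
  · -- near case
    have hs : u.take ((k + 1 - B) * W) = v.take ((k + 1 - B) * W) := by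
      by_cases hBk : B ≤ k
      · by_contra hn
        exact hfar ⟨hBk, hn⟩
      · have : k + 1 - B = 0 := by omega
        rw [this, zero_mul, List.take_zero, List.take_zero]
    have hex : ∃ s, u.take (s + 1) ≠ v.take (s + 1) := by
      refine ⟨u.length, ?_⟩
      rw [List.take_of_length_le (by omega), List.take_of_length_le (by omega)]
      exact hne
    classical
    set s := Nat.find hex with hsdef
    have hs1 : u.take (s + 1) ≠ v.take (s + 1) := Nat.find_spec hex
    have hs0 : u.take s = v.take s := by
      rcases Nat.eq_zero_or_pos s with h0 | h0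
      · rw [h0, List.take_zero, List.take_zero]
      · by_contra hn
        have hm : s - 1 < Nat.find hex := by omega
        apply Nat.find_min hex hm
        rw [Nat.sub_add_cancel h0]
        exact hn
    have hge : (k + 1 - B) * W ≤ s := by
      by_contra hlt
      push Not at hlt
      apply hs1
      have := congrArg (List.take (s + 1)) hs
      rwa [List.take_take, List.take_take, min_eq_left (by omega)] at this
    have hdiv : k + 1 - B ≤ s / W := (Nat.le_div_iff_mul_le hW).2 hge
    have hlu : u.length ≤ (s / W + B) * W :=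
      hk2.trans (Nat.mul_le_mul_right _ (by omega))
    rcases Nat.lt_or_ge s v.length with hsv | hsv
    · have hsu : s < u.length := by omega
      have hb : u.getD s false ≠ v.getD s false := by
        intro hb
        apply hs1
        rw [List.take_add_one, List.take_add_one, hs0]
        congr 1
        rw [List.getD_eq_getElem?_getD, List.getD_eq_getElem?_getD,
          List.getElem?_eq_getElem hsu, List.getElem?_eq_getElem hsv] at hb
        rw [List.getElem?_eq_getElem hsu, List.getElem?_eq_getElem hsv]
        simpa using hb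
      obtain ⟨c, _, hc⟩ := branch (K := K) hW (by omega) ω u v s hsu hsv hs0 hb hlu (by omega)
      exact ⟨c, hc⟩
    · have hvs : v.take s = v := List.take_of_length_le hsv
      have hsu : s < u.length := by
        by_contra hn
        push Not at hn
        apply hne
        rw [← List.take_of_length_le hn, hs0, hvs]
      obtain ⟨c, hc⟩ := prefixNe (K := K) hW hB hK ω u s hsu hlu
      refine ⟨c, ?_⟩
      rw [hs0, hvs] at hc
      exact hc

end Pool.Agent.Work.MP_bf01b2_co
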