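import Pool.Agent.Work.MP_bf01b2_co.Fam

/-!
# MP_bf01b2_co : the potential function
-/

set_option autoImplicit false

namespace Pool.Agent.Work.MP_bf01b2_co

variable {W B K : ℕ}

/-- The slabs used in the potential. -/
def R (W B q : ℕ) (v : List Bool) : Finset ℕ :=
  (used W B v).filter fun t => t % B ≠ q ∧ t % B ≠ (q + 1) % B

/-- Block `t` of `v` matches the target `x`. -/
def Mt (B K : ℕ) (ω : List Bool → Fin W → Fin 16) (x : Finset Co) (v : List Bool) (t : ℕ) :
    Prop :=
  ∀ c ∈ coarse W B K, c.1 = t % B → P B K ω (v.take ((t + 1) * W)) c = if c ∈ x then 1 else 0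

open Classical in
/-- A factor of the potential. -/
noncomputable def fac (B K : ℕ) (θ : ℝ) (D : Finset (List Bool))
    (ω : List Bool → Fin W → Fin 16) (x : Finset Co) (v : List Bool) (t : ℕ) : ℝ :=
  if v.take (t * W) ∈ D then (if Mt B K ω x v t then 1 else 0) else θ

/-- The factors of a tuple. -/
def idx (W B q : ℕ) {L : ℕ} (V : Fin L → List Bool) : Finset (Σ _ : Fin L, ℕ) :=
  (Finset.univ : Finset (Fin L)).sigma fun i => R W B q (V i)

/-- A term of the potential. -/
noncomputable def term (B K : ℕ) (θ : ℝ) (D : Finset (List Bool))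
    (ω : List Bool → Fin W → Fin 16) {L : ℕ} (q : ℕ) (x : Finset Co) (V : Fin L → List Bool) : ℝ :=
  ∏ p ∈ idx W B q V, fac B K θ D ω x (V p.1) p.2

/-- Admissible tuples. -/
def Adm (W B : ℕ) {L : ℕ} (V : Fin L → List Bool) : Prop :=
  (∀ i, (B - 2) * W < (V i).length) ∧ ∀ i j, i ≠ j → Disjoint (U W B (V i)) (U W B (V j))

open Classical in
/-- The tuples of the potential. -/
noncomputable def Tup (W B L : ℕ) (T : Finset (List Bool)) : Finset (Fin L → List Bool) :=
  (Fintype.piFinset fun _ : Fin L => T).filter fun V => Adm W B V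

/-- The potential. -/
noncomputable def Phi (B K L : ℕ) (θ : ℝ) (T D : Finset (List Bool))
    (ω : List Bool → Fin W → Fin 16) : ℝ :=
  ∑ q ∈ Finset.range B, ∑ x ∈ (coarse W B K).powerset, ∑ V ∈ Tup W B L T, term B K θ D ω q x V

lemma fac_nonneg {θ : ℝ} (hθ : 0 ≤ θ) (D : Finset (List Bool))
    (ω : List Bool → Fin W → Fin 16) (x : Finset Co) (v : List Bool) (t : ℕ) :
    0 ≤ fac B K θ D ω x v t := by
  unfold fac
  split_ifs <;> first | exact zero_le_one | exact le_rfl | exact hθ

lemma used_bounds (hW : 0 < W) (v : List Bool) (t : ℕ) (ht : t ∈ used W B v) :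
    t * W < v.length ∧ (t + 1) * W < v.length ∧ v.length ≤ (t + B - 1) * W := by
  unfold used at ht
  rw [Finset.mem_Ico] at ht
  have hpos : 0 < v.length := by
    rcases Nat.eq_zero_or_pos v.length with h | h
    · rw [h] at ht; simp at ht
    · exact h
  have h1 := slab_bounds hW v hpos
  have h2 : t * W ≤ (v.length - 1) / W * W := Nat.mul_le_mul_right _ ht.2.le
  have h3 : (t + 1) * W ≤ (v.length - 1) / W * W := Nat.mul_le_mul_right _ ht.2
  refine ⟨by omega, by omega, h1.2.trans (Nat.mul_le_mul_right _ (by omega))⟩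

/-- Factors not at `w` do not change. -/
lemma fac_update (hW : 0 < W) {θ : ℝ} (D : Finset (List Bool))
    (ω : List Bool → Fin W → Fin 16) (w : List Bool) (k : ℕ) (hk : w.length = k * W)
    (hwD : w ∉ D) (hD : ∀ w' ∈ D, w'.length ≤ k * W)
    (o : Fin W → Fin 16) (x : Finset Co) (v : List Bool) (t : ℕ) (ht : t ∈ used W B v)
    (hne : v.take (t * W) ≠ w) :
    fac B K θ (insert w D) (Function.update ω w o) x v t = fac B K θ D ω x v t := by
  unfold fac
  obtain ⟨h1, h2, h3⟩ := used_bounds hW v t ht
  by_cases hin : v.take (t * W) ∈ D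
  · rw [if_pos (Finset.mem_insert_of_mem hin), if_pos hin]
    have hMt : Mt B K (Function.update ω w o) x v t ↔ Mt B K ω x v t := by
      unfold Mt
      have hP : ∀ c, P B K (Function.update ω w o) (v.take ((t + 1) * W)) c =
          P B K ω (v.take ((t + 1) * W)) c := by
        intro c
        apply P_congr
        intro t' ht'
        rw [List.length_take, min_eq_left h2.le] at ht'
        rw [Function.update_of_ne]
        intro h
        rw [List.take_take, min_eq_left ht'.le] at h
        have hl : t' * W = k * W := by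
          rw [← hk, ← h, List.length_take]; omega
        have hk' : t' = k := Nat.eq_of_mul_eq_mul_right hW hl
        subst hk'
        have ht2 : t' ≤ t := Nat.lt_succ_iff.1 (Nat.lt_of_mul_lt_mul_right ht')
        have hDl := hD _ hin
        rw [List.length_take, min_eq_left h1.le] at hDl
        have ht3 : t ≤ t' := Nat.le_of_mul_le_mul_right hDl hW
        have : t' = t := by omega
        subst this
        exact hne h
      simp only [hP]
    by_cases hm : Mt B K ω x v t
    · rw [if_pos hm, if_pos (hMt.2 hm)]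
    · rw [if_neg hm, if_neg (fun h => hm (hMt.1 h))]
  · rw [if_neg hin, if_neg]
    intro h
    rcases Finset.mem_insert.1 h with h | h
    · exact hne h
    · exact hin h

lemma card_eight (n : Bool) (f g : ZMod 2) (A : Finset (Fin 16))
    (hA : ∀ a ∈ A, f = g + if ((a : ℕ) + n.toNat) % 2 = 1 then 1 else 0) : A.card ≤ 8 := by
  classical
  by_cases hfg : f = g
  · have hsub : A ⊆ Finset.univ.filter fun a : Fin 16 => ¬ ((a : ℕ) + n.toNat) % 2 = 1 := by
      intro a ha
      rw [Finset.mem_filter]
      refine ⟨Finset.mem_univ _, fun h => ?_⟩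
      have := hA a ha
      rw [if_pos h, hfg] at this
      have h1 : (1 : ZMod 2) = 0 := by
        have := congrArg (fun z => z - g) this
        simpa using this.symm
      exact one_ne_zero h1
    refine (Finset.card_le_card hsub).trans ?_
    cases n <;> decide
  · have hsub : A ⊆ Finset.univ.filter fun a : Fin 16 => ((a : ℕ) + n.toNat) % 2 = 1 := by
      intro a ha
      rw [Finset.mem_filter]
      refine ⟨Finset.mem_univ _, ?_⟩
      by_contra h
      have := hA a ha
      rw [if_neg h, add_zero] at this
      exact hfg this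
    refine (Finset.card_le_card hsub).trans ?_
    cases n <;> decide

/-- The option value `a` produces the group content `f` from `g`. -/
def GMatch (f g : ℕ → ZMod 2) (n : ℕ) (a : Fin 16) : Prop :=
  ∀ j < 16, f j = g j + if ((a : ℕ) + n) % 16 = j then 1 else 0

/-- Few options produce a given block content. -/
lemma match_card (hW : 0 < W) (hB : 0 < B) (hKW : K ≤ W)
    (ω : List Bool → Fin W → Fin 16) (w : List Bool) (k : ℕ)
    (x : Finset Co) (v : List Bool) (hv : (k + 1) * W ≤ v.length) (hvw : v.take (k * W) = w)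
    (S : Finset (Fin W → Fin 16)) (hS : ∀ o ∈ S, Mt B K (Function.update ω w o) x v k) :
    S.card ≤ 8 ^ (W - K) := by
  classical
  have hmB := Nat.mod_lt k hB
  have hlt : k * W < (k + 1) * W := by rw [add_mul, one_mul]; omega
  have hv'l : (v.take ((k + 1) * W)).length = (k + 1) * W := by rw [List.length_take]; omega
  have hv'w : (v.take ((k + 1) * W)).take (k * W) = w := by
    rw [List.take_take, min_eq_left hlt.le, hvw]
  set v' := v.take ((k + 1) * W) with hv'
  let F : Co → ZMod 2 := fun c => if c ∈ x then 1 else 0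
  have hcd : ∀ (o : Fin W → Fin 16) (i : Fin W), cd B K (Function.update ω w o) v' (k * W + i) =
      co W B K (k * W + i) ((o i : ℕ) + (v'.getD (k * W + i) false).toNat) := by
    intro o i
    have hdm := div_mul_add_mod hW k i i.2
    unfold cd
    rw [hdm.1, hdm.2, hv'w, Function.update_self]
    unfold oval
    simp
  have hPv : ∀ (o : Fin W → Fin 16) (i : Fin W) (j : ℕ),
      P B K (Function.update ω w o) v' (k % B, (i : ℕ), j) = P B K ω w (k % B, (i : ℕ), j) +
        if cd B K (Function.update ω w o) v' (k * W + i) = (k % B, (i : ℕ), j) then 1 else 0 := by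
    intro o i j
    rw [P_in hW _ v' k (k % B, (i : ℕ), j) hB (by omega) (by omega) rfl i.2, hv'w, P_update_self]
    have : k * W + (i : ℕ) < v'.length := by
      rw [hv'l, add_mul, one_mul]
      have := i.2
      omega
    simp only [this, true_and]
  let A : Fin W → Finset (Fin 16) := fun i =>
    if (i : ℕ) < K then Finset.univ.filter fun a : Fin 16 =>
      GMatch (fun j => F (k % B, (i : ℕ), j)) (fun j => P B K ω w (k % B, (i : ℕ), j))
        (v'.getD (k * W + i) false).toNat a
    else Finset.univ.filter fun a : Fin 16 =>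
      F (k % B, (i : ℕ), 0) = P B K ω w (k % B, (i : ℕ), 0) +
        if ((a : ℕ) + (v'.getD (k * W + i) false).toNat) % 2 = 1 then 1 else 0
  have hsub : S ⊆ Fintype.piFinset A := by
    intro o ho
    have hM := hS o ho
    rw [Fintype.mem_piFinset]
    intro i
    have hdm := div_mul_add_mod hW k i i.2
    show o i ∈ (if (i : ℕ) < K then _ else _ : Finset (Fin 16))
    split_ifs with hi
    · rw [Finset.mem_filter]
      refine ⟨Finset.mem_univ _, fun j hj => ?_⟩
      have h1 := hM (k % B, (i : ℕ), j) (by
        unfold coarse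
        simp only [Finset.mem_union, Finset.mem_product, Finset.mem_range]
        exact Or.inl ⟨hmB, hi, hj⟩) rfl
      show (if (k % B, (i : ℕ), j) ∈ x then (1 : ZMod 2) else 0) = _
      rw [← h1, ← hv', hPv, hcd, co_pool _ _ (by rw [hdm.2]; exact hi), hdm.1, hdm.2]
      simp
    · rw [Finset.mem_filter]
      refine ⟨Finset.mem_univ _, ?_⟩
      have h1 := hM (k % B, (i : ℕ), 0) (by
        unfold coarse
        simp only [Finset.mem_union, Finset.mem_product, Finset.mem_range, Finset.mem_Ico,
          Finset.mem_singleton]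
        exact Or.inr ⟨hmB, ⟨not_lt.1 hi, i.2⟩, trivial⟩) rfl
      show (if (k % B, (i : ℕ), 0) ∈ x then (1 : ZMod 2) else 0) = _
      rw [← h1, ← hv', hPv, hcd]
      congr 1
      have hne : ((B, (i : ℕ), 0) : Co) ≠ (k % B, (i : ℕ), 0) := by
        intro h
        simp only [Prod.mk.injEq] at h
        omega
      unfold co
      rw [hdm.1, hdm.2, if_neg hi]
      by_cases h2 : ((o i : ℕ) + (v'.getD (k * W + i) false).toNat) % 2 = 1
      · rw [if_pos h2, if_pos h2, if_pos rfl]
      · rw [if_neg h2, if_neg h2, if_neg hne]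
  refine (Finset.card_le_card hsub).trans ?_
  rw [Fintype.card_piFinset]
  have h8 : (8 : ℕ) ^ (W - K) = ∏ i : Fin W, (if (i : ℕ) < K then 1 else 8) := by
    rw [prod_ite_pow hKW, one_pow, one_mul]
  rw [h8]
  apply Finset.prod_le_prod'
  intro i _
  show (if (i : ℕ) < K then _ else _ : Finset (Fin 16)).card ≤ _
  split_ifs with hi
  · rw [Finset.card_le_one]
    intro a ha b hb
    rw [Finset.mem_filter] at ha hb
    exact hit_unique (fun j => F (k % B, (i : ℕ), j)) (fun j => P B K ω w (k % B, (i : ℕ), j)) _
      a b ha.2 hb.2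
  · apply card_eight (v'.getD (k * W + i) false) (F (k % B, (i : ℕ), 0))
      (P B K ω w (k % B, (i : ℕ), 0))
    intro a ha
    rw [Finset.mem_filter] at ha
    exact ha.2

/-- Averaging over the good options does not increase a term. -/
lemma term_step (hW : 0 < W) (hB : 0 < B) (hKW : K ≤ W) {θ : ℝ} (hθ : 0 ≤ θ)
    (D : Finset (List Bool))
    (ω : List Bool → Fin W → Fin 16) (w : List Bool) (k : ℕ) (hk : w.length = k * W)
    (hwD : w ∉ D) (hD : ∀ w' ∈ D, w'.length ≤ k * W) {L : ℕ} (q : ℕ) (x : Finset Co)
    (V : Fin L → List Bool) (hV : Adm W B V) (G : Finset (Fin W → Fin 16))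
    (hG : (8 : ℝ) ^ (W - K) ≤ θ * G.card) :
    ∑ o ∈ G, term B K θ (insert w D) (Function.update ω w o) q x V ≤
      G.card * term B K θ D ω q x V := by
  classical
  by_cases hex : ∃ p ∈ idx W B q V, (V p.1).take (p.2 * W) = w
  · obtain ⟨p0, hp0, hp0w⟩ := hex
    have hp0' := hp0
    unfold idx at hp0'
    rw [Finset.mem_sigma] at hp0'
    have hused0 : p0.2 ∈ used W B (V p0.1) := (Finset.mem_filter.1 hp0'.2).1
    obtain ⟨hb1, hb2, hb3⟩ := used_bounds hW _ _ hused0
    have hk0 : p0.2 = k := by
      have : p0.2 * W = k * W := by rw [← hk, ← hp0w, List.length_take]; omega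
      exact Nat.eq_of_mul_eq_mul_right hW this
    have hother : ∀ p ∈ (idx W B q V).erase p0, (V p.1).take (p.2 * W) ≠ w := by
      intro p hp hpw
      rw [Finset.mem_erase] at hp
      obtain ⟨hpne, hpm⟩ := hp
      unfold idx at hpm
      rw [Finset.mem_sigma] at hpm
      have husedp : p.2 ∈ used W B (V p.1) := (Finset.mem_filter.1 hpm.2).1
      obtain ⟨hc1, hc2, hc3⟩ := used_bounds hW _ _ husedp
      have hkp : p.2 = k := by
        have : p.2 * W = k * W := by rw [← hk, ← hpw, List.length_take]; omega
        exact Nat.eq_of_mul_eq_mul_right hW this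
      by_cases hii : p.1 = p0.1
      · apply hpne
        obtain ⟨a, b⟩ := p
        obtain ⟨a0, b0⟩ := p0
        simp only at hii hkp hk0
        subst hii; subst hkp; subst hk0
        rfl
      · have hdis := hV.2 p.1 p0.1 hii
        have m1 : w ∈ U W B (V p.1) := by
          unfold U
          rw [Finset.mem_image]
          exact ⟨p.2, husedp, hpw⟩
        have m2 : w ∈ U W B (V p0.1) := by
          unfold U
          rw [Finset.mem_image]
          exact ⟨p0.2, hused0, hp0w⟩
        exact (Finset.disjoint_left.1 hdis m1) m2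
    set rest : ℝ := ∏ p ∈ (idx W B q V).erase p0, fac B K θ D ω x (V p.1) p.2 with hrest
    have hrest0 : 0 ≤ rest := Finset.prod_nonneg fun p _ => fac_nonneg hθ _ _ _ _ _
    have hold : term B K θ D ω q x V = θ * rest := by
      unfold term
      rw [← Finset.mul_prod_erase _ _ hp0]
      congr 1
      unfold fac
      rw [if_neg]
      rw [hp0w]
      exact hwD
    have hnew : ∀ o, term B K θ (insert w D) (Function.update ω w o) q x V =
        (if Mt B K (Function.update ω w o) x (V p0.1) k then 1 else 0) * rest := by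
      intro o
      unfold term
      rw [← Finset.mul_prod_erase _ _ hp0]
      congr 1
      · unfold fac
        rw [if_pos (by rw [hp0w]; exact Finset.mem_insert_self _ _), hk0]
      · apply Finset.prod_congr rfl
        intro p hp
        have hpm := (Finset.mem_erase.1 hp).2
        unfold idx at hpm
        rw [Finset.mem_sigma] at hpm
        exact fac_update hW D ω w k hk hwD hD o x (V p.1) p.2 (Finset.mem_filter.1 hpm.2).1
          (hother p hp)
    simp only [hnew]
    rw [← Finset.sum_mul, hold, ← mul_assoc]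
    apply mul_le_mul_of_nonneg_right _ hrest0
    rw [← Finset.sum_filter, Finset.sum_const, nsmul_eq_mul, mul_one, mul_comm]
    refine le_trans ?_ hG
    have hm := match_card hW hB hKW ω w k x (V p0.1) (by rw [hk0] at hb2; exact hb2.le)
      (by rw [← hk0]; exact hp0w) (G.filter fun o => Mt B K (Function.update ω w o) x (V p0.1) k)
      (fun o ho => (Finset.mem_filter.1 ho).2)
    exact_mod_cast hm
  · push Not at hex
    have : ∀ o, term B K θ (insert w D) (Function.update ω w o) q x V = term B K θ D ω q x V := by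
      intro o
      unfold term
      apply Finset.prod_congr rfl
      intro p hp
      have hpm := hp
      unfold idx at hpm
      rw [Finset.mem_sigma] at hpm
      exact fac_update hW D ω w k hk hwD hD o x (V p.1) p.2 (Finset.mem_filter.1 hpm.2).1
        (hex p hp)
    simp only [this]
    rw [Finset.sum_const, nsmul_eq_mul]

/-- There is a good option which does not increase the potential. -/
lemma phi_step (hW : 0 < W) (hB : 0 < B) (hKW : K ≤ W) {θ : ℝ} (hθ : 0 ≤ θ) (L : ℕ)
    (T D : Finset (List Bool))
    (ω : List Bool → Fin W → Fin 16) (w : List Bool) (k : ℕ) (hk : w.length = k * W)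
    (hwD : w ∉ D) (hD : ∀ w' ∈ D, w'.length ≤ k * W) (G : Finset (Fin W → Fin 16))
    (hG0 : G.Nonempty) (hG : (8 : ℝ) ^ (W - K) ≤ θ * G.card) :
    ∃ o ∈ G, Phi B K L θ T (insert w D) (Function.update ω w o) ≤ Phi B K L θ T D ω := by
  classical
  apply Finset.exists_le_of_sum_le hG0
  rw [Finset.sum_const, nsmul_eq_mul]
  unfold Phi
  rw [Finset.sum_comm, Finset.mul_sum]
  apply Finset.sum_le_sum
  intro q _
  rw [Finset.sum_comm, Finset.mul_sum]
  apply Finset.sum_le_sum
  intro x _
  rw [Finset.sum_comm, Finset.mul_sum]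
  apply Finset.sum_le_sum
  intro V hV
  exact term_step hW hB hKW hθ D ω w k hk hwD hD q x V (Finset.mem_filter.1 hV).2 G hG

/-- The potential bounds the size of a disjoint family in a fibre. -/
lemma fam_of_phi (hW : 0 < W) (hB : 2 ≤ B) (hKW : K ≤ W) {θ : ℝ} (hθ : 0 ≤ θ) (L : ℕ)
    (T D : Finset (List Bool))
    (ω : List Bool → Fin W → Fin 16) (w : List Bool) (k : ℕ)
    (hphi : Phi B K L θ T D ω < 1) (F : Finset (List Bool)) (hFT : F ⊆ T)
    (hF : ∀ v ∈ F, Placed W D v ∧ Fib B K ω k w v ∧ (B - 2) * W < v.length)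
    (hFd : PwD W B F) : F.card < L := by
  classical
  by_contra hcard
  push Not at hcard
  -- an injection of Fin L into F
  obtain ⟨F', hF'F, hF'c⟩ := Finset.exists_subset_card_eq hcard
  let e := F'.equivFinOfCardEq hF'c
  let V : Fin L → List Bool := fun i => (e.symm i : List Bool)
  have hVmem : ∀ i, V i ∈ F := fun i => hF'F (e.symm i).2
  have hVinj : ∀ i j, i ≠ j → V i ≠ V j := by
    intro i j hij h
    apply hij
    have : e.symm i = e.symm j := Subtype.ext h
    exact e.symm.injective this
  have hadm : Adm W B V := by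
    refine ⟨fun i => (hF _ (hVmem i)).2.2, ?_⟩
    intro i j hij
    exact hFd _ (hVmem i) _ (hVmem j) (hVinj i j hij)
  have hVT : V ∈ Tup W B L T := by
    unfold Tup
    rw [Finset.mem_filter, Fintype.mem_piFinset]
    exact ⟨fun i => hFT (hVmem i), hadm⟩
  let x : Finset Co := (coarse W B K).filter fun c => P B K ω w c = 1
  have hx : x ∈ (coarse W B K).powerset := by
    rw [Finset.mem_powerset]
    exact Finset.filter_subset _ _
  have hq : k % B ∈ Finset.range B := Finset.mem_range.2 (Nat.mod_lt _ (by omega))
  have hone : term B K θ D ω (k % B) x V = 1 := by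
    unfold term
    apply Finset.prod_eq_one
    intro p hp
    unfold idx at hp
    rw [Finset.mem_sigma] at hp
    have hR := hp.2
    unfold R at hR
    rw [Finset.mem_filter] at hR
    obtain ⟨hused, hr1, hr2⟩ := hR
    obtain ⟨hb1, hb2, hb3⟩ := used_bounds hW _ _ hused
    obtain ⟨hpl, hfib, hlen⟩ := hF _ (hVmem p.1)
    unfold fac
    rw [if_pos (hpl p.2 hb1), if_pos]
    intro c hc hct
    have hmB := Nat.mod_lt p.2 (show 0 < B by omega)
    have hc1 : c.1 < B := by rw [hct]; exact hmB
    have hc2 : c.2.1 < W := by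
      unfold coarse at hc
      simp only [Finset.mem_union, Finset.mem_product, Finset.mem_range, Finset.mem_Ico,
        Finset.mem_singleton] at hc
      rcases hc with hc | hc
      · exact lt_of_lt_of_le hc.2.1 hKW
      · exact hc.2.1.2
    have hspan := P_span (K := K) hW ω (V p.1) (p.2 + 1) (p.2 + B) c (by omega)
      (hb3.trans (Nat.mul_le_mul_right _ (by omega))) hc1 hc2 (by omega) (by omega)
      (by rw [Nat.add_mod_right]; exact hct.symm)
    rw [if_neg, add_zero] at hspan
    · rw [← hspan, hfib c hc1 (by rw [hct]; exact hr1) (by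
        rw [hct]
        rw [Nat.add_mod, Nat.mod_mod, ← Nat.add_mod] at hr2
        exact hr2)]
      by_cases h1 : P B K ω w c = 1
      · have hcx : c ∈ x := Finset.mem_filter.2 ⟨hc, h1⟩
        rw [if_pos hcx, h1]
      · have hcx : c ∉ x := fun h => h1 (Finset.mem_filter.1 h).2
        rw [if_neg hcx]
        have : ∀ z : ZMod 2, z ≠ 1 → z = 0 := by decide
        exact this _ h1
    · rintro ⟨h, _⟩
      have : (p.2 + B - 1) * W ≤ (p.2 + B) * W := Nat.mul_le_mul_right _ (by omega)
      omega
  have hnn : ∀ q x V, 0 ≤ term B K θ D ω (L := L) q x V := fun q x V =>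
    Finset.prod_nonneg fun p _ => fac_nonneg hθ _ _ _ _ _
  have : (1 : ℝ) ≤ Phi B K L θ T D ω := by
    unfold Phi
    calc (1 : ℝ) = term B K θ D ω (k % B) x V := hone.symm
      _ ≤ ∑ V ∈ Tup W B L T, term B K θ D ω (k % B) x V :=
          Finset.single_le_sum (f := fun V => term B K θ D ω (k % B) x V)
            (fun V _ => hnn _ _ V) hVT
      _ ≤ ∑ x ∈ (coarse W B K).powerset, ∑ V ∈ Tup W B L T, term B K θ D ω (k % B) x V :=
          Finset.single_le_sum
            (f := fun x => ∑ V ∈ Tup W B L T, term B K θ D ω (k % B) x V)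
            (fun x _ => Finset.sum_nonneg fun V _ => hnn _ x V) hx
      _ ≤ _ :=
          Finset.single_le_sum
            (f := fun q => ∑ x ∈ (coarse W B K).powerset, ∑ V ∈ Tup W B L T,
              term B K θ D ω q x V)
            (fun q _ => Finset.sum_nonneg fun x _ => Finset.sum_nonneg fun V _ => hnn q x V) hq
  linarith

end Pool.Agent.Work.MP_bf01b2_co
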